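import Mathlib

set_option autoImplicit false

namespace Pool.Agent.Results.MP_b61c36_nt.PPCCounterexample

open Filter Topology Finset

/-- `nd y` is the distance from `y` to the nearest integer. -/
noncomputable def nd (y : ℝ) : ℝ := |y - round y|

/-- The number of ordered pairs `(k, l)` with `1 ≤ k, l ≤ N`, `k ≠ l` and `‖x_k - x_l‖ < δ`. -/
noncomputable def pairCount (x : ℕ → ℝ) (N : ℕ) (δ : ℝ) : ℕ :=
  ((Finset.Icc 1 N ×ˢ Finset.Icc 1 N).filter fun p => p.1 ≠ p.2 ∧ nd (x p.1 - x p.2) < δ).card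

/-- The sequence `x_1, x_2, …` has Poissonian pair correlations: for every `s > 0`,
`(1/N) #{(k,l) : 1 ≤ k,l ≤ N, k ≠ l, ‖x_k - x_l‖ < s/N}` tends to `2 s` as `N → ∞`. -/
def HasPPC (x : ℕ → ℝ) : Prop :=
  ∀ s : ℝ, 0 < s →
    Tendsto (fun N : ℕ => (1 / (N : ℝ)) * (pairCount x N (s / N) : ℝ)) atTop (𝓝 (2 * s))

section part0

lemma nd_le (y : ℝ) (m : ℤ) : nd y ≤ |y - m| := round_le y m

lemma nd_nonneg (y : ℝ) : 0 ≤ nd y := abs_nonneg _

lemma nd_lt_iff (y δ : ℝ) : nd y < δ ↔ ∃ m : ℤ, |y - m| < δ :=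
  ⟨fun h => ⟨round y, h⟩, fun ⟨m, hm⟩ => (nd_le y m).trans_lt hm⟩

lemma nd_zero : nd 0 = 0 := by simp [nd]

lemma nd_neg (y : ℝ) : nd (-y) = nd y := by
  apply le_antisymm
  · have := nd_le (-y) (-round y)
    refine this.trans (le_of_eq ?_)
    unfold nd
    rw [← abs_neg]
    congr 1
    push_cast
    ring
  · have := nd_le y (-round (-y))
    refine this.trans (le_of_eq ?_)
    unfold nd
    rw [← abs_neg]
    congr 1
    push_cast
    ring

lemma nd_sub_comm (x y : ℝ) : nd (x - y) = nd (y - x) := by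
  rw [← nd_neg]; congr 1; ring

lemma nd_add_le (x y : ℝ) : nd (x + y) ≤ nd x + nd y := by
  refine (nd_le (x + y) (round x + round y)).trans ?_
  unfold nd
  refine (le_of_eq ?_).trans (abs_add_le _ _)
  congr 1
  push_cast
  ring

lemma nd_le_abs (y : ℝ) : nd y ≤ |y| := by simpa using nd_le y 0

/-- number of close pairs `(a, b) ∈ A × B` -/
noncomputable def Q (x : ℕ → ℝ) (A B : Finset ℕ) (δ : ℝ) : ℕ :=
  ((A ×ˢ B).filter fun p => nd (x p.1 - x p.2) < δ).card

/-- the bin of `x` (out of `M`) -/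
noncomputable def bin (M : ℕ) (x : ℝ) : ZMod M := ((⌊(M : ℝ) * x⌋ : ℤ) : ZMod M)

lemma bin_close (M : ℕ) (hM : 0 < M) (x y : ℝ) (h : bin M x = bin M y) : nd (x - y) < 1 / M := by
  have hMR : (0 : ℝ) < M := by exact_mod_cast hM
  unfold bin at h
  rw [ZMod.intCast_eq_intCast_iff_dvd_sub] at h
  obtain ⟨c, hc⟩ := h
  rw [nd_lt_iff]
  refine ⟨-c, ?_⟩
  have hx1 := Int.floor_le ((M : ℝ) * x)
  have hx2 := Int.lt_floor_add_one ((M : ℝ) * x)
  have hy1 := Int.floor_le ((M : ℝ) * y)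
  have hy2 := Int.lt_floor_add_one ((M : ℝ) * y)
  have hcR : (⌊(M : ℝ) * y⌋ : ℝ) - ⌊(M : ℝ) * x⌋ = M * c := by exact_mod_cast hc
  rw [lt_div_iff₀ hMR, mul_comm, ← abs_of_pos hMR, ← abs_mul, abs_lt]
  push_cast
  constructor <;> nlinarith

lemma bin_far (M : ℕ) (x y δ : ℝ) (hδ : (M : ℝ) * δ ≤ 2) (h : nd (x - y) < δ) :
    ∃ c ∈ Finset.Icc (-2 : ℤ) 2, bin M x = bin M y + (c : ZMod M) := by
  rw [nd_lt_iff] at h
  obtain ⟨m, hm⟩ := h
  have hx1 := Int.floor_le ((M : ℝ) * x)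
  have hx2 := Int.lt_floor_add_one ((M : ℝ) * x)
  have hy1 := Int.floor_le ((M : ℝ) * y)
  have hy2 := Int.lt_floor_add_one ((M : ℝ) * y)
  have hM0 : (0 : ℝ) ≤ M := Nat.cast_nonneg M
  refine ⟨⌊(M : ℝ) * x⌋ - ⌊(M : ℝ) * y⌋ - M * m, ?_, ?_⟩
  · have h1 : |(M : ℝ) * x - M * y - M * m| ≤ M * δ := by
      have : (M : ℝ) * x - M * y - M * m = M * (x - y - m) := by ring
      rw [this, abs_mul, abs_of_nonneg hM0]
      exact mul_le_mul_of_nonneg_left hm.le hM0
    rw [abs_le] at h1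
    rw [Finset.mem_Icc]
    constructor
    · have : ((-3 : ℤ) : ℝ) < ((⌊(M : ℝ) * x⌋ - ⌊(M : ℝ) * y⌋ - M * m : ℤ) : ℝ) := by
        push_cast; linarith [h1.1, h1.2]
      have := Int.cast_lt.mp this
      omega
    · have : ((⌊(M : ℝ) * x⌋ - ⌊(M : ℝ) * y⌋ - M * m : ℤ) : ℝ) < ((3 : ℤ) : ℝ) := by
        push_cast; linarith [h1.1, h1.2]
      have := Int.cast_lt.mp this
      omega
  · unfold bin
    push_cast
    simp

/-- Cauchy --Schwarz for close pairs -/
lemma Q_cs (x : ℕ → ℝ) (A B : Finset ℕ) (δ : ℝ) (hδ0 : 0 < δ) (hδ1 : δ ≤ 1) :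
    (Q x A B δ) ^ 2 ≤ 25 * (Q x A A δ * Q x B B δ) := by
  classical
  set M := ⌈1 / δ⌉₊ with hMdef
  have hM0 : 0 < M := Nat.ceil_pos.mpr (by positivity)
  have : NeZero M := ⟨hM0.ne'⟩
  have hM1 : 1 / δ ≤ M := Nat.le_ceil _
  have hM2 : (M : ℝ) < 1 / δ + 1 := Nat.ceil_lt_add_one (by positivity)
  have hMR : (0 : ℝ) < M := by exact_mod_cast hM0
  have hw1 : 1 / (M : ℝ) ≤ δ := by
    rw [div_le_iff₀ hMR]
    rw [div_le_iff₀ hδ0] at hM1
    linarith
  have hw2 : (M : ℝ) * δ ≤ 2 := by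
    have : (M : ℝ) * δ ≤ (1 / δ + 1) * δ := mul_le_mul_of_nonneg_right hM2.le hδ0.le
    have h2 : (1 / δ + 1) * δ = 1 + δ := by field_simp
    linarith
  -- bin counts
  let cnt : Finset ℕ → ZMod M → ℕ := fun S b => (S.filter fun n => bin M (x n) = b).card
  have hself : ∀ S : Finset ℕ, ∑ b : ZMod M, cnt S b ^ 2 ≤ Q x S S δ := by
    intro S
    have h1 : ∑ b : ZMod M, cnt S b ^ 2 =
        ((S ×ˢ S).filter fun p => bin M (x p.1) = bin M (x p.2)).card := by
      rw [Finset.card_eq_sum_card_fiberwise (f := fun p : ℕ × ℕ => bin M (x p.1))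
        (t := Finset.univ) (fun _ _ => Finset.mem_coe.mpr (Finset.mem_univ _))]
      refine Finset.sum_congr rfl (fun b _ => ?_)
      rw [sq, ← Finset.card_product]
      congr 1
      ext ⟨p, q⟩
      simp only [Finset.mem_product, Finset.mem_filter]
      constructor
      · rintro ⟨⟨h1, h2⟩, h3, h4⟩
        exact ⟨⟨⟨h1, h3⟩, by rw [h2, h4]⟩, h2⟩
      · rintro ⟨⟨⟨h1, h3⟩, h2⟩, h4⟩
        exact ⟨⟨h1, h4⟩, h3, by rw [← h2, h4]⟩
    rw [h1]
    unfold Q
    apply Finset.card_le_card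
    intro p hp
    rw [Finset.mem_filter] at hp ⊢
    exact ⟨hp.1, (bin_close M hM0 _ _ hp.2).trans_le hw1⟩
  -- upper bound for `Q x A B`
  have hcross : Q x A B δ ≤ ∑ c ∈ Finset.Icc (-2 : ℤ) 2, ∑ b : ZMod M,
      cnt A (b + (c : ZMod M)) * cnt B b := by
    unfold Q
    have h1 : ((A ×ˢ B).filter fun p => nd (x p.1 - x p.2) < δ) ⊆
        (Finset.Icc (-2 : ℤ) 2).biUnion (fun c =>
          (A ×ˢ B).filter fun p => bin M (x p.1) = bin M (x p.2) + (c : ZMod M)) := by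
      intro p hp
      rw [Finset.mem_filter] at hp
      obtain ⟨c, hc, hc2⟩ := bin_far M _ _ δ hw2 hp.2
      rw [Finset.mem_biUnion]
      exact ⟨c, hc, Finset.mem_filter.mpr ⟨hp.1, hc2⟩⟩
    refine (Finset.card_le_card h1).trans (Finset.card_biUnion_le.trans ?_)
    refine Finset.sum_le_sum (fun c _ => ?_)
    rw [Finset.card_eq_sum_card_fiberwise (f := fun p : ℕ × ℕ => bin M (x p.2))
        (t := Finset.univ) (fun _ _ => Finset.mem_coe.mpr (Finset.mem_univ _))]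
    refine Finset.sum_le_sum (fun b _ => ?_)
    rw [← Finset.card_product]
    apply Finset.card_le_card
    rintro ⟨p, q⟩ hp
    simp only [Finset.mem_product, Finset.mem_filter] at hp ⊢
    obtain ⟨⟨⟨h1, h3⟩, h2⟩, h4⟩ := hp
    exact ⟨⟨h1, by rw [h2, h4]⟩, h3, h4⟩
  -- Cauchy --Schwarz
  have hcs : ∀ c : ℤ, (∑ b : ZMod M, cnt A (b + (c : ZMod M)) * cnt B b) ^ 2 ≤
      Q x A A δ * Q x B B δ := by
    intro c
    have h1 := Finset.sum_mul_sq_le_sq_mul_sq (Finset.univ : Finset (ZMod M))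
      (fun b => cnt A (b + (c : ZMod M))) (fun b => cnt B b)
    have h2 : ∑ b : ZMod M, cnt A (b + (c : ZMod M)) ^ 2 = ∑ b : ZMod M, cnt A b ^ 2 :=
      Fintype.sum_equiv (Equiv.addRight (c : ZMod M)) _ _ (fun b => rfl)
    rw [h2] at h1
    exact h1.trans (Nat.mul_le_mul (hself A) (hself B))
  have h5 : (Q x A B δ) ^ 2 ≤ (∑ c ∈ Finset.Icc (-2 : ℤ) 2, ∑ b : ZMod M,
      cnt A (b + (c : ZMod M)) * cnt B b) ^ 2 := Nat.pow_le_pow_left hcross 2
  refine h5.trans ?_
  have h6 := sq_sum_le_card_mul_sum_sq (s := Finset.Icc (-2 : ℤ) 2) (f := fun c => ∑ b : ZMod M,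
      cnt A (b + (c : ZMod M)) * cnt B b)
  refine h6.trans ?_
  have h7 : (Finset.Icc (-2 : ℤ) 2).card = 5 := by decide
  rw [h7]
  have h8 : ∑ c ∈ Finset.Icc (-2 : ℤ) 2, (∑ b : ZMod M,
      cnt A (b + (c : ZMod M)) * cnt B b) ^ 2 ≤ 5 * (Q x A A δ * Q x B B δ) := by
    refine (Finset.sum_le_card_nsmul _ _ _ (fun c _ => hcs c)).trans (le_of_eq ?_)
    rw [h7, smul_eq_mul]
  calc 5 * ∑ c ∈ Finset.Icc (-2 : ℤ) 2, (∑ b : ZMod M,
      cnt A (b + (c : ZMod M)) * cnt B b) ^ 2 ≤ 5 * (5 * (Q x A A δ * Q x B B δ)) :=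
        Nat.mul_le_mul_left _ h8
    _ = 25 * (Q x A A δ * Q x B B δ) := by ring

end part0

section part1

open MeasureTheory ProbabilityTheory

instance instProbT : IsProbabilityMeasure (volume : Measure UnitAddCircle) :=
  ⟨UnitAddCircle.measure_univ⟩

/-- infinite product of the uniform measure on the circle -/
noncomputable def mu : Measure (ℕ → UnitAddCircle) :=
  Measure.infinitePi (fun _ : ℕ => (volume : Measure UnitAddCircle))

instance instProbMu : IsProbabilityMeasure mu := by unfold mu; infer_instance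

/-- translate the `i`-th coordinate -/
def tr (i : ℕ) (c : UnitAddCircle) (ω : ℕ → UnitAddCircle) : ℕ → UnitAddCircle :=
  fun k => ω k + (if k = i then c else 0)

lemma measurable_tr (i : ℕ) : Measurable (fun p : UnitAddCircle × (ℕ → UnitAddCircle) =>
    tr i p.1 p.2) := by
  unfold tr
  rw [measurable_pi_iff]
  intro k
  by_cases h : k = i
  · simp only [h, if_true]; fun_prop
  · simp only [h, if_false, add_zero]; fun_prop

lemma mp_tr (i : ℕ) (c : UnitAddCircle) : MeasurePreserving (tr i c) mu mu := by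
  refine ⟨(measurable_tr i).comp (measurable_const.prodMk measurable_id), ?_⟩
  unfold mu
  have h := Measure.infinitePi_map_pi (fun _ : ℕ => (volume : Measure UnitAddCircle))
    (f := fun k x => x + (if k = i then c else 0)) (fun k => by fun_prop)
  have h2 : (fun (x : ℕ → UnitAddCircle) (k : ℕ) => x k + (if k = i then c else 0)) = tr i c := rfl
  rw [h2] at h
  rw [h]
  congr 1
  funext k
  exact (measurePreserving_add_right volume _).map_eq

/-- the event that coordinates `i` and `j` are `δ`-close -/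
def E (i j : ℕ) (δ : ℝ) : Set (ℕ → UnitAddCircle) := {ω | ‖ω i - ω j‖ < δ}

lemma measurableSet_E (i j : ℕ) (δ : ℝ) : MeasurableSet (E i j δ) := by
  apply measurableSet_lt
  · fun_prop
  · exact measurable_const

lemma vol_ball (z : UnitAddCircle) (δ : ℝ) (hδ : δ ≤ 1 / 2) :
    volume (Metric.ball z δ) = ENNReal.ofReal (2 * δ) := by
  have h1 := AddCircle.volume_closedBall (1 : ℝ) (x := z) δ
  have h2 : (volume (Metric.closedBall z δ) : ENNReal) = volume (Metric.ball z δ) :=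
    measure_congr AddCircle.closedBall_ae_eq_ball
  rw [← h2, h1, min_eq_right (by linarith)]

lemma fiber (i j : ℕ) (hij : i ≠ j) (δ : ℝ) (hδ : δ ≤ 1 / 2) (G : Set (ℕ → UnitAddCircle))
    (hG : MeasurableSet G) (hinv : ∀ c ω, tr i c ω ∈ G ↔ ω ∈ G) :
    mu (E i j δ ∩ G) = ENNReal.ofReal (2 * δ) * mu G := by
  set S := E i j δ ∩ G with hS
  have hSm : MeasurableSet S := (measurableSet_E i j δ).inter hG
  have h1 : ∀ c : UnitAddCircle, mu (tr i c ⁻¹' S) = mu S := fun c =>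
    (mp_tr i c).measure_preimage hSm.nullMeasurableSet
  have h2 : mu S = ∫⁻ c : UnitAddCircle, mu (tr i c ⁻¹' S) := by
    simp only [h1, lintegral_const, measure_univ, mul_one]
  rw [h2]
  have h3 : ∀ c : UnitAddCircle, mu (tr i c ⁻¹' S) =
      ∫⁻ ω, S.indicator (1 : (ℕ → UnitAddCircle) → ENNReal) (tr i c ω) ∂mu := by
    intro c
    rw [← lintegral_indicator_one (hSm.preimage ((mp_tr i c).measurable))]
    rfl
  simp only [h3]
  rw [lintegral_lintegral_swap]
  · have h4 : ∀ ω, ∫⁻ c : UnitAddCircle, S.indicator (1 : (ℕ → UnitAddCircle) → ENNReal) (tr i c ω) =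
        G.indicator (fun _ => ENNReal.ofReal (2 * δ)) ω := by
      intro ω
      by_cases hω : ω ∈ G
      · rw [Set.indicator_of_mem hω]
        have h5 : ∀ c : UnitAddCircle, S.indicator (1 : (ℕ → UnitAddCircle) → ENNReal) (tr i c ω) =
            (Metric.ball (ω j - ω i) δ).indicator 1 c := by
          intro c
          have h6 : tr i c ω ∈ S ↔ c ∈ Metric.ball (ω j - ω i) δ := by
            rw [hS, Set.mem_inter_iff, hinv, Metric.mem_ball, dist_eq_norm]
            have h7 : tr i c ω i - tr i c ω j = c - (ω j - ω i) := by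
              unfold tr
              rw [if_pos rfl, if_neg hij.symm, add_zero]
              abel
            constructor
            · rintro ⟨h8, _⟩
              unfold E at h8
              rw [Set.mem_ofPred_eq, h7] at h8
              exact h8
            · intro h8
              refine ⟨?_, hω⟩
              unfold E
              rw [Set.mem_ofPred_eq, h7]
              exact h8
          by_cases h7 : c ∈ Metric.ball (ω j - ω i) δ
          · rw [Set.indicator_of_mem h7, Set.indicator_of_mem (h6.mpr h7)]; rfl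
          · rw [Set.indicator_of_notMem h7, Set.indicator_of_notMem (fun h => h7 (h6.mp h))]
        simp only [h5]
        rw [lintegral_indicator_one measurableSet_ball, vol_ball _ _ hδ]
      · rw [Set.indicator_of_notMem hω]
        have h5 : ∀ c : UnitAddCircle, S.indicator (1 : (ℕ → UnitAddCircle) → ENNReal) (tr i c ω) = 0 := by
          intro c
          apply Set.indicator_of_notMem
          rintro ⟨_, h⟩
          exact hω ((hinv c ω).mp h)
        simp only [h5, lintegral_zero]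
    simp only [h4]
    rw [lintegral_indicator_const hG]
  · apply Measurable.aemeasurable
    have : Function.uncurry (fun (c : UnitAddCircle) (ω : ℕ → UnitAddCircle) =>
        S.indicator (1 : (ℕ → UnitAddCircle) → ENNReal) (tr i c ω)) =
        (S.indicator (1 : (ℕ → UnitAddCircle) → ENNReal)) ∘ (fun p : UnitAddCircle × (ℕ → UnitAddCircle) =>
          tr i p.1 p.2) := rfl
    rw [this]
    exact (measurable_one.indicator hSm).comp (measurable_tr i)

lemma mu_E (i j : ℕ) (hij : i ≠ j) (δ : ℝ) (hδ0 : 0 ≤ δ) (hδ : δ ≤ 1 / 2) :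
    mu.real (E i j δ) = 2 * δ := by
  have h := fiber i j hij δ hδ Set.univ MeasurableSet.univ (fun _ _ => by simp)
  rw [Set.inter_univ, measure_univ, mul_one] at h
  rw [Measure.real, h, ENNReal.toReal_ofReal (by linarith)]

lemma mu_E_inter (i j a b : ℕ) (hij : i ≠ j) (hab : a ≠ b) (hia : i ≠ a) (hib : i ≠ b)
    (δ : ℝ) (hδ0 : 0 ≤ δ) (hδ : δ ≤ 1 / 2) :
    mu.real (E i j δ ∩ E a b δ) = (2 * δ) * (2 * δ) := by
  have h := fiber i j hij δ hδ (E a b δ) (measurableSet_E a b δ) (fun c ω => by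
    have h1 : tr i c ω a = ω a := by unfold tr; rw [if_neg hia.symm, add_zero]
    have h2 : tr i c ω b = ω b := by unfold tr; rw [if_neg hib.symm, add_zero]
    show ‖tr i c ω a - tr i c ω b‖ < δ ↔ ‖ω a - ω b‖ < δ
    rw [h1, h2])
  have h2 := mu_E a b hab δ hδ0 hδ
  rw [Measure.real] at h2 ⊢
  rw [h, ENNReal.toReal_mul, h2, ENNReal.toReal_ofReal (by linarith)]

/-- indicator minus probability -/
noncomputable def Y (e : ℕ × ℕ) (δ : ℝ) (ω : ℕ → UnitAddCircle) : ℝ :=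
  (E e.1 e.2 δ).indicator (fun _ => (1 : ℝ)) ω - 2 * δ

lemma measurable_Y (e : ℕ × ℕ) (δ : ℝ) : Measurable (Y e δ) :=
  (measurable_const.indicator (measurableSet_E _ _ _)).sub measurable_const

lemma Y_mul (e e' : ℕ × ℕ) (δ : ℝ) (ω : ℕ → UnitAddCircle) :
    Y e δ ω * Y e' δ ω = (E e.1 e.2 δ ∩ E e'.1 e'.2 δ).indicator (fun _ => (1 : ℝ)) ω
      - 2 * δ * (E e.1 e.2 δ).indicator (fun _ => (1 : ℝ)) ω
      - 2 * δ * (E e'.1 e'.2 δ).indicator (fun _ => (1 : ℝ)) ω + (2 * δ) * (2 * δ) := by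
  unfold Y
  by_cases h1 : ω ∈ E e.1 e.2 δ <;> by_cases h2 : ω ∈ E e'.1 e'.2 δ <;>
    simp [Set.indicator, h1, h2] <;> ring

lemma integrable_ind (S : Set (ℕ → UnitAddCircle)) (hS : MeasurableSet S) :
    Integrable (S.indicator (fun _ => (1 : ℝ))) mu :=
  (integrable_const (1 : ℝ)).indicator hS

lemma integrable_YY (e e' : ℕ × ℕ) (δ : ℝ) :
    Integrable (fun ω => Y e δ ω * Y e' δ ω) mu := by
  simp only [Y_mul]
  have h1 := integrable_ind _ ((measurableSet_E e.1 e.2 δ).inter (measurableSet_E e'.1 e'.2 δ))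
  have h2 := integrable_ind _ (measurableSet_E e.1 e.2 δ)
  have h3 := integrable_ind _ (measurableSet_E e'.1 e'.2 δ)
  exact ((h1.sub (h2.const_mul _)).sub (h3.const_mul _)).add (integrable_const _)

lemma integral_ind (S : Set (ℕ → UnitAddCircle)) (hS : MeasurableSet S) :
    ∫ ω, S.indicator (fun _ => (1 : ℝ)) ω ∂mu = mu.real S := by
  rw [integral_indicator hS]
  simp

lemma integral_lin (f g h : (ℕ → UnitAddCircle) → ℝ) (c d : ℝ) (hf : Integrable f mu)
    (hg : Integrable g mu) (hh : Integrable h mu) :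
    ∫ ω, (f ω - c * g ω - c * h ω + d) ∂mu =
      ∫ ω, f ω ∂mu - c * ∫ ω, g ω ∂mu - c * ∫ ω, h ω ∂mu + d := by
  have h1 : Integrable (fun ω => f ω - c * g ω) mu := hf.sub (hg.const_mul c)
  have h2 : Integrable (fun ω => f ω - c * g ω - c * h ω) mu := h1.sub (hh.const_mul c)
  rw [integral_add h2 (integrable_const _), integral_sub h1 (hh.const_mul c),
    integral_sub hf (hg.const_mul c), integral_const_mul, integral_const_mul]
  simp

lemma integral_YY (e e' : ℕ × ℕ) (he : e.1 ≠ e.2) (he' : e'.1 ≠ e'.2) (δ : ℝ) (hδ0 : 0 ≤ δ)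
    (hδ : δ ≤ 1 / 2) :
    ∫ ω, Y e δ ω * Y e' δ ω ∂mu =
      mu.real (E e.1 e.2 δ ∩ E e'.1 e'.2 δ) - (2 * δ) * (2 * δ) := by
  simp only [Y_mul]
  have h1 := integrable_ind _ ((measurableSet_E e.1 e.2 δ).inter (measurableSet_E e'.1 e'.2 δ))
  have h2 := integrable_ind _ (measurableSet_E e.1 e.2 δ)
  have h3 := integrable_ind _ (measurableSet_E e'.1 e'.2 δ)
  have h4 := integral_ind _ ((measurableSet_E e.1 e.2 δ).inter (measurableSet_E e'.1 e'.2 δ))
  have h5 := integral_ind _ (measurableSet_E e.1 e.2 δ)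
  have h6 := integral_ind _ (measurableSet_E e'.1 e'.2 δ)
  rw [integral_lin _ _ _ (2 * δ) ((2 * δ) * (2 * δ)) h1 h2 h3, h4, h5, h6,
    mu_E _ _ he δ hδ0 hδ, mu_E _ _ he' δ hδ0 hδ]
  ring

lemma E_symm (i j : ℕ) (δ : ℝ) : E i j δ = E j i δ := by
  ext ω
  show ‖ω i - ω j‖ < δ ↔ ‖ω j - ω i‖ < δ
  rw [norm_sub_rev]

lemma integral_YY_zero (e e' : ℕ × ℕ) (he : e.1 ≠ e.2) (he' : e'.1 ≠ e'.2) (δ : ℝ) (hδ0 : 0 ≤ δ)
    (hδ : δ ≤ 1 / 2) (h1 : e' ≠ e) (h2 : e' ≠ e.swap) :
    ∫ ω, Y e δ ω * Y e' δ ω ∂mu = 0 := by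
  rw [integral_YY e e' he he' δ hδ0 hδ]
  obtain ⟨i, j⟩ := e
  obtain ⟨a, b⟩ := e'
  simp only [Prod.swap_prod_mk, ne_eq, Prod.mk.injEq, not_and] at he he' h1 h2 ⊢
  by_cases hia : i = a
  · -- then j ≠ b, j ≠ a
    have hjb : j ≠ b := fun h => h1 hia.symm h.symm
    have hja : j ≠ a := fun h => he (by rw [hia, h])
    rw [E_symm i j, mu_E_inter j i a b (Ne.symm he) he' hja hjb δ hδ0 hδ]
    ring
  · by_cases hib : i = b
    · have hja : j ≠ a := fun h => h2 h.symm hib.symm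
      have hjb : j ≠ b := fun h => he (by rw [hib, h])
      rw [E_symm i j, mu_E_inter j i a b (Ne.symm he) he' hja hjb δ hδ0 hδ]
      ring
    · rw [mu_E_inter i j a b he he' hia hib δ hδ0 hδ]
      ring

lemma integral_YY_le (e e' : ℕ × ℕ) (he : e.1 ≠ e.2) (he' : e'.1 ≠ e'.2) (δ : ℝ) (hδ0 : 0 ≤ δ)
    (hδ : δ ≤ 1 / 2) : ∫ ω, Y e δ ω * Y e' δ ω ∂mu ≤ 2 * δ := by
  rw [integral_YY e e' he he' δ hδ0 hδ]
  have h1 : mu.real (E e.1 e.2 δ ∩ E e'.1 e'.2 δ) ≤ mu.real (E e.1 e.2 δ) :=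
    measureReal_mono Set.inter_subset_left
  rw [mu_E _ _ he δ hδ0 hδ] at h1
  nlinarith

/-- centred pair count -/
noncomputable def X (N : ℕ) (δ : ℝ) (ω : ℕ → UnitAddCircle) : ℝ :=
  ∑ e ∈ (range N).offDiag, Y e δ ω

lemma measurable_X (N : ℕ) (δ : ℝ) : Measurable (X N δ) :=
  Finset.measurable_sum _ (fun e _ => measurable_Y e δ)

lemma X_sq (N : ℕ) (δ : ℝ) (ω : ℕ → UnitAddCircle) :
    X N δ ω ^ 2 = ∑ e ∈ (range N).offDiag, ∑ e' ∈ (range N).offDiag, Y e δ ω * Y e' δ ω := by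
  unfold X
  rw [sq, Finset.sum_mul_sum]

lemma integrable_X_sq (N : ℕ) (δ : ℝ) : Integrable (fun ω => X N δ ω ^ 2) mu := by
  simp only [X_sq]
  exact integrable_finsetSum _ (fun e _ => integrable_finsetSum _ (fun e' _ =>
    integrable_YY e e' δ))

lemma integral_X_sq (N : ℕ) (δ : ℝ) (hδ0 : 0 ≤ δ) (hδ : δ ≤ 1 / 2) :
    ∫ ω, X N δ ω ^ 2 ∂mu ≤ 4 * (N : ℝ) ^ 2 * δ := by
  simp only [X_sq]
  rw [integral_finsetSum _ (fun e _ => integrable_finsetSum _ (fun e' _ =>
    integrable_YY e e' δ))]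
  have h1 : ∀ e ∈ (range N).offDiag, ∫ ω, ∑ e' ∈ (range N).offDiag, Y e δ ω * Y e' δ ω ∂mu
      ≤ 4 * δ := by
    intro e he
    rw [Finset.mem_offDiag] at he
    rw [integral_finsetSum _ (fun e' _ => integrable_YY e e' δ)]
    have h2 : ∑ e' ∈ (range N).offDiag, ∫ ω, Y e δ ω * Y e' δ ω ∂mu ≤
        ∑ e' ∈ (range N).offDiag, ((if e' = e then 2 * δ else 0) +
          (if e' = e.swap then 2 * δ else 0)) := by
      refine Finset.sum_le_sum (fun e' he' => ?_)
      rw [Finset.mem_offDiag] at he'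
      by_cases h3 : e' = e
      · rw [if_pos h3]
        have h5 := integral_YY_le e e' he.2.2 he'.2.2 δ hδ0 hδ
        have h6 : (0 : ℝ) ≤ if e' = e.swap then 2 * δ else 0 := by
          split_ifs
          · linarith
          · exact le_rfl
        linarith
      · by_cases h4 : e' = e.swap
        · rw [if_neg h3, if_pos h4]
          have h5 := integral_YY_le e e' he.2.2 he'.2.2 δ hδ0 hδ
          linarith
        · rw [if_neg h3, if_neg h4, integral_YY_zero e e' he.2.2 he'.2.2 δ hδ0 hδ h3 h4]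
          simp
    refine h2.trans ?_
    rw [Finset.sum_add_distrib, Finset.sum_ite_eq', Finset.sum_ite_eq']
    have h3 : ∀ (P : Prop) [Decidable P], (if P then 2 * δ else 0) ≤ 2 * δ := by
      intro P _
      split_ifs
      · exact le_rfl
      · linarith
    have h4 := h3 (e ∈ (range N).offDiag)
    have h5 := h3 (e.swap ∈ (range N).offDiag)
    linarith
  refine (Finset.sum_le_sum h1).trans ?_
  rw [Finset.sum_const, nsmul_eq_mul]
  have h2 : (((range N).offDiag.card : ℕ) : ℝ) ≤ (N : ℝ) ^ 2 := by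
    have : (range N).offDiag.card ≤ N ^ 2 := by
      rw [Finset.offDiag_card, card_range, sq]
      exact Nat.sub_le _ _
    exact_mod_cast this
  nlinarith

/-- the number of ordered off-diagonal pairs among the first `N` points at distance `< δ` -/
noncomputable def offc (ω : ℕ → UnitAddCircle) (N : ℕ) (δ : ℝ) : ℕ :=
  ((range N).offDiag.filter fun p => ‖ω p.1 - ω p.2‖ < δ).card

lemma X_eq (N : ℕ) (δ : ℝ) (ω : ℕ → UnitAddCircle) :
    X N δ ω = (offc ω N δ : ℝ) - ((N : ℝ) ^ 2 - N) * (2 * δ) := by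
  classical
  unfold X Y offc
  rw [Finset.sum_sub_distrib, Finset.sum_const, nsmul_eq_mul]
  congr 1
  · rw [Finset.card_filter]
    push_cast
    refine Finset.sum_congr rfl (fun e _ => ?_)
    by_cases h : ‖ω e.1 - ω e.2‖ < δ
    · rw [if_pos h, Set.indicator_of_mem (show ω ∈ E e.1 e.2 δ from h)]
    · rw [if_neg h, Set.indicator_of_notMem (show ω ∉ E e.1 e.2 δ from h)]
  · congr 1
    rw [Finset.offDiag_card, card_range, Nat.cast_sub (Nat.le_mul_self N)]
    push_cast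
    ring

lemma ae_tendsto_zero (f : ℕ → (ℕ → UnitAddCircle) → ℝ) (hf : ∀ m, Measurable (f m))
    (hnn : ∀ m ω, 0 ≤ f m ω) (hint : ∀ m, Integrable (f m) mu) (b : ℕ → ℝ)
    (hb : ∀ m, ∫ ω, f m ω ∂mu ≤ b m) (hs : Summable b) :
    ∀ᵐ ω ∂mu, Tendsto (fun m => f m ω) atTop (𝓝 0) := by
  have hb0 : ∀ m, 0 ≤ b m := fun m => (integral_nonneg (hnn m)).trans (hb m)
  have h1 : ∫⁻ ω, ∑' m, ENNReal.ofReal (f m ω) ∂mu ≠ ⊤ := by
    rw [lintegral_tsum (fun m => (hf m).ennreal_ofReal.aemeasurable)]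
    have h2 : ∀ m, ∫⁻ ω, ENNReal.ofReal (f m ω) ∂mu ≤ ENNReal.ofReal (b m) := by
      intro m
      rw [← ofReal_integral_eq_lintegral_ofReal (hint m) (Eventually.of_forall (hnn m))]
      exact ENNReal.ofReal_le_ofReal (hb m)
    refine ne_top_of_le_ne_top ?_ (ENNReal.tsum_le_tsum h2)
    rw [← ENNReal.ofReal_tsum_of_nonneg hb0 hs]
    exact ENNReal.ofReal_ne_top
  have h2 := ae_lt_top (Measurable.tsum (fun m => (hf m).ennreal_ofReal)) h1
  filter_upwards [h2] with ω hω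
  have h3 := ENNReal.tendsto_atTop_zero_of_tsum_ne_top hω.ne
  have h4 := (ENNReal.tendsto_toReal ENNReal.zero_ne_top).comp h3
  simp only [ENNReal.toReal_zero] at h4
  refine h4.congr (fun m => ?_)
  simp [Function.comp, ENNReal.toReal_ofReal (hnn m ω)]

lemma conv_sq (s : ℝ) (hs : 0 < s) : ∀ᵐ ω ∂mu,
    Tendsto (fun m : ℕ => (offc ω ((m + 1) ^ 2) (s / ((m : ℝ) + 1) ^ 2) : ℝ) / ((m : ℝ) + 1) ^ 2)
      atTop (𝓝 (2 * s)) := by
  set M0 : ℕ := ⌈2 * s⌉₊ with hM0
  have hM0' : 2 * s ≤ M0 := Nat.le_ceil _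
  let f : ℕ → (ℕ → UnitAddCircle) → ℝ := fun m ω =>
    (X ((m + M0 + 1) ^ 2) (s / ((m : ℝ) + M0 + 1) ^ 2) ω) ^ 2 / (((m : ℝ) + M0 + 1) ^ 2) ^ 2
  have hbase : ∀ m : ℕ, (0 : ℝ) < (m : ℝ) + M0 + 1 := fun m => by positivity
  have hae := ae_tendsto_zero f
    (fun m => ((measurable_X _ _).pow_const 2).div_const _)
    (fun m ω => by positivity)
    (fun m => (integrable_X_sq _ _).div_const _)
    (fun m => 4 * s / ((m : ℝ) + M0 + 1) ^ 2)
    (fun m => by
      show ∫ ω, (X ((m + M0 + 1) ^ 2) (s / ((m : ℝ) + M0 + 1) ^ 2) ω) ^ 2 /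
        (((m : ℝ) + M0 + 1) ^ 2) ^ 2 ∂mu ≤ _
      rw [integral_div]
      have hb := hbase m
      have h1 := integral_X_sq ((m + M0 + 1) ^ 2) (s / ((m : ℝ) + M0 + 1) ^ 2) (by positivity) (by
        rw [div_le_iff₀ (by positivity)]
        have h2 : (M0 : ℝ) ≤ (m : ℝ) + M0 + 1 := by
          have : (0 : ℝ) ≤ m := Nat.cast_nonneg m
          linarith
        have h3 : (1 : ℝ) ≤ (m : ℝ) + M0 + 1 := by
          have : (0 : ℝ) ≤ m := Nat.cast_nonneg m
          have : (0 : ℝ) ≤ M0 := Nat.cast_nonneg M0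
          linarith
        nlinarith)
      rw [div_le_iff₀ (by positivity)]
      refine h1.trans (le_of_eq ?_)
      push_cast
      field_simp)
    (by
      have h1 : Summable (fun m : ℕ => (4 * s) * (1 / ((m : ℝ)) ^ 2)) :=
        (Real.summable_one_div_nat_pow.mpr (by norm_num)).mul_left _
      have h2 := (summable_nat_add_iff (M0 + 1)).mpr h1
      refine h2.congr (fun m => ?_)
      push_cast
      rw [add_assoc]
      ring)
  filter_upwards [hae] with ω hω
  have h1 : Tendsto (fun m : ℕ => X ((m + M0 + 1) ^ 2) (s / ((m : ℝ) + M0 + 1) ^ 2) ω /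
      ((m : ℝ) + M0 + 1) ^ 2) atTop (𝓝 0) := by
    have h2 : Tendsto (fun m : ℕ => (X ((m + M0 + 1) ^ 2) (s / ((m : ℝ) + M0 + 1) ^ 2) ω /
      ((m : ℝ) + M0 + 1) ^ 2) ^ 2) atTop (𝓝 0) := by
      refine hω.congr (fun m => ?_)
      show (X ((m + M0 + 1) ^ 2) (s / ((m : ℝ) + M0 + 1) ^ 2) ω) ^ 2 /
        (((m : ℝ) + M0 + 1) ^ 2) ^ 2 = _
      rw [div_pow]
    have h3 := (Real.continuous_sqrt.tendsto 0).comp h2
    rw [Real.sqrt_zero] at h3
    have h4 := h3
    rw [tendsto_zero_iff_abs_tendsto_zero]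
    refine h4.congr (fun m => ?_)
    simp only [Function.comp, Real.sqrt_sq_eq_abs]
  -- shift
  rw [← tendsto_add_atTop_iff_nat M0]
  have h2 : Tendsto (fun m : ℕ => (1 : ℝ) / ((m : ℝ) + M0 + 1) ^ 2) atTop (𝓝 0) := by
    have h3 : Tendsto (fun m : ℕ => (1 : ℝ) / ((m : ℝ) + 1)) atTop (𝓝 0) :=
      tendsto_one_div_add_atTop_nhds_zero_nat
    refine squeeze_zero (fun m => by positivity) (fun m => ?_) h3
    apply one_div_le_one_div_of_le (by positivity)
    have h4 : (0 : ℝ) ≤ m := Nat.cast_nonneg m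
    have h5 : (0 : ℝ) ≤ M0 := Nat.cast_nonneg M0
    nlinarith
  have h3 : Tendsto (fun m : ℕ => X ((m + M0 + 1) ^ 2) (s / ((m : ℝ) + M0 + 1) ^ 2) ω /
      ((m : ℝ) + M0 + 1) ^ 2 + 2 * s - 2 * s * (1 / ((m : ℝ) + M0 + 1) ^ 2)) atTop
      (𝓝 (0 + 2 * s - 2 * s * 0)) :=
    (h1.add_const _).sub (h2.const_mul _)
  have h4 : (0 : ℝ) + 2 * s - 2 * s * 0 = 2 * s := by ring
  rw [h4] at h3
  refine h3.congr (fun m => ?_)
  have hb := hbase m
  rw [X_eq]
  push_cast
  field_simp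
  ring

/-- pair correlation of `ω` along the squares, for all rational `s` -/
lemma exists_omega : ∃ ω : ℕ → UnitAddCircle, ∀ s : ℚ, 0 < s →
    Tendsto (fun m : ℕ => (offc ω ((m + 1) ^ 2) ((s : ℝ) / ((m : ℝ) + 1) ^ 2) : ℝ) /
      ((m : ℝ) + 1) ^ 2) atTop (𝓝 (2 * (s : ℝ))) := by
  have h : ∀ᵐ ω ∂mu, ∀ s : ℚ, 0 < s →
      Tendsto (fun m : ℕ => (offc ω ((m + 1) ^ 2) ((s : ℝ) / ((m : ℝ) + 1) ^ 2) : ℝ) /
      ((m : ℝ) + 1) ^ 2) atTop (𝓝 (2 * (s : ℝ))) := by
    rw [ae_all_iff]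
    intro s
    by_cases hs : 0 < s
    · filter_upwards [conv_sq (s : ℝ) (by exact_mod_cast hs)] with ω hω _
      exact hω
    · exact Eventually.of_forall (fun ω h => absurd h hs)
  exact h.exists

end part1

section part2

/-- number of ordered pairs `k ≠ l` among the first `N` terms with `‖x_k - x_l‖ < δ` -/
noncomputable def offr (x : ℕ → ℝ) (N : ℕ) (δ : ℝ) : ℕ :=
  ((range N).offDiag.filter fun p => nd (x p.1 - x p.2) < δ).card

/-- Poissonian pair correlations -/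
def PPC (x : ℕ → ℝ) : Prop :=
  ∀ s : ℝ, 0 < s → Tendsto (fun N : ℕ => (offr x N (s / N) : ℝ) / N) atTop (𝓝 (2 * s))

lemma offr_mono (x : ℕ → ℝ) {N N' : ℕ} {δ δ' : ℝ} (hN : N ≤ N') (hδ : δ ≤ δ') :
    offr x N δ ≤ offr x N' δ' := by
  unfold offr
  apply Finset.card_le_card
  intro p hp
  rw [Finset.mem_filter, Finset.mem_offDiag, mem_range, mem_range] at hp ⊢
  exact ⟨⟨by omega, by omega, hp.1.2.2⟩, hp.2.trans_le hδ⟩

lemma sqrt_tendsto : Tendsto Nat.sqrt atTop atTop := by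
  rw [tendsto_atTop]
  intro b
  filter_upwards [eventually_ge_atTop (b * b)] with N hN
  exact Nat.le_sqrt.mpr hN

lemma ratio_aux : Tendsto (fun r : ℕ => ((r : ℝ) + 1) ^ 2 / (r : ℝ) ^ 2) atTop (𝓝 1) := by
  have h1 : Tendsto (fun r : ℕ => (1 + 1 / (r : ℝ)) ^ 2) atTop (𝓝 ((1 + 0) ^ 2)) :=
    (tendsto_const_nhds.add tendsto_one_div_atTop_nhds_zero_nat).pow 2
  rw [add_zero, one_pow] at h1
  refine h1.congr' ?_
  filter_upwards [eventually_ge_atTop 1] with r hr
  have : (0 : ℝ) < r := by exact_mod_cast hr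
  field_simp

lemma ratio_up : Tendsto (fun N : ℕ => ((Nat.sqrt N : ℝ) + 1) ^ 2 / N) atTop (𝓝 1) := by
  refine tendsto_of_tendsto_of_tendsto_of_le_of_le' tendsto_const_nhds
    (ratio_aux.comp sqrt_tendsto) ?_ ?_
  · filter_upwards [eventually_ge_atTop 1] with N hN
    have hNR : (0 : ℝ) < N := by exact_mod_cast hN
    rw [le_div_iff₀ hNR, one_mul]
    have := Nat.lt_succ_sqrt' N
    exact_mod_cast this.le
  · filter_upwards [eventually_ge_atTop 1] with N hN
    have h0 : 0 < Nat.sqrt N := Nat.sqrt_pos.mpr hN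
    have h0R : (0 : ℝ) < Nat.sqrt N := by exact_mod_cast h0
    have hNR : (0 : ℝ) < N := by exact_mod_cast hN
    have h1 := Nat.sqrt_le' N
    have h1R : ((Nat.sqrt N : ℕ) : ℝ) ^ 2 ≤ N := by exact_mod_cast h1
    show ((Nat.sqrt N : ℝ) + 1) ^ 2 / N ≤ ((Nat.sqrt N : ℝ) + 1) ^ 2 / (Nat.sqrt N : ℝ) ^ 2
    exact div_le_div_of_nonneg_left (by positivity) (by positivity) h1R

lemma ratio_down : Tendsto (fun N : ℕ => ((Nat.sqrt N : ℝ)) ^ 2 / N) atTop (𝓝 1) := by
  have h0 : Tendsto (fun r : ℕ => ((r : ℝ)) ^ 2 / ((r : ℝ) + 1) ^ 2) atTop (𝓝 1) := by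
    have := ratio_aux.inv₀ one_ne_zero
    rw [inv_one] at this
    refine this.congr (fun r => ?_)
    rw [inv_div]
  refine tendsto_of_tendsto_of_tendsto_of_le_of_le' (h0.comp sqrt_tendsto) tendsto_const_nhds ?_ ?_
  · filter_upwards [eventually_ge_atTop 1] with N hN
    have hNR : (0 : ℝ) < N := by exact_mod_cast hN
    have := Nat.lt_succ_sqrt' N
    have h1R : (N : ℝ) ≤ ((Nat.sqrt N : ℕ) + 1 : ℝ) ^ 2 := by exact_mod_cast this.le
    show (Nat.sqrt N : ℝ) ^ 2 / ((Nat.sqrt N : ℝ) + 1) ^ 2 ≤ (Nat.sqrt N : ℝ) ^ 2 / N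
    exact div_le_div_of_nonneg_left (by positivity) hNR h1R
  · filter_upwards [eventually_ge_atTop 1] with N hN
    have hNR : (0 : ℝ) < N := by exact_mod_cast hN
    rw [div_le_one hNR]
    exact_mod_cast Nat.sqrt_le' N

lemma ppc_of_squares (x : ℕ → ℝ) (h : ∀ s : ℚ, 0 < s →
    Tendsto (fun m : ℕ => (offr x ((m + 1) ^ 2) ((s : ℝ) / ((m : ℝ) + 1) ^ 2) : ℝ) /
      ((m : ℝ) + 1) ^ 2) atTop (𝓝 (2 * (s : ℝ)))) : PPC x := by
  intro s hs
  have hpos : ∀ᶠ N : ℕ in atTop, 1 ≤ N := eventually_ge_atTop 1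
  rw [tendsto_order]
  constructor
  · intro a ha
    obtain ⟨q, hq1, hq2⟩ := exists_rat_btwn (show max (a / 2) 0 < s from max_lt (by linarith) hs)
    have hq0 : (0 : ℝ) < q := (le_max_right _ _).trans_lt hq1
    have hqa : a / 2 < q := (le_max_left _ _).trans_lt hq1
    have h1 := (h q (by exact_mod_cast hq0)).comp
      ((tendsto_sub_atTop_nat 1).comp sqrt_tendsto)
    have h2 := h1.mul ratio_down
    rw [mul_one] at h2
    have h3 : ∀ᶠ N : ℕ in atTop, (q : ℝ) * (((Nat.sqrt N : ℝ) + 1) ^ 2 / (Nat.sqrt N : ℝ) ^ 2) < s := by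
      have := (ratio_aux.comp sqrt_tendsto).const_mul (q : ℝ)
      rw [mul_one] at this
      exact this.eventually (gt_mem_nhds hq2)
    filter_upwards [h2.eventually (lt_mem_nhds (show a < 2 * (q : ℝ) by linarith)), h3, hpos]
      with N hN1 hN2 hN3
    refine hN1.trans_le ?_
    have h0 : 0 < Nat.sqrt N := Nat.sqrt_pos.mpr hN3
    have h0R : (0 : ℝ) < Nat.sqrt N := by exact_mod_cast h0
    have hNR : (0 : ℝ) < N := by exact_mod_cast hN3
    have hsub : Nat.sqrt N - 1 + 1 = Nat.sqrt N := by omega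
    have hsubR : ((Nat.sqrt N - 1 : ℕ) : ℝ) + 1 = (Nat.sqrt N : ℝ) := by exact_mod_cast hsub
    simp only [Function.comp, hsub, hsubR]
    have h4 : (offr x (Nat.sqrt N ^ 2) ((q : ℝ) / (Nat.sqrt N : ℝ) ^ 2) : ℝ) ≤
        (offr x N (s / N) : ℝ) := by
      have : offr x (Nat.sqrt N ^ 2) ((q : ℝ) / (Nat.sqrt N : ℝ) ^ 2) ≤ offr x N (s / N) := by
        apply offr_mono x (Nat.sqrt_le' N)
        rw [div_le_div_iff₀ (by positivity) hNR]
        have h5 : (N : ℝ) ≤ ((Nat.sqrt N : ℕ) + 1 : ℝ) ^ 2 := by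
          exact_mod_cast (Nat.lt_succ_sqrt' N).le
        rw [← mul_div_assoc, div_lt_iff₀ (by positivity)] at hN2
        nlinarith
      exact_mod_cast this
    rw [div_mul_div_comm, mul_comm ((Nat.sqrt N : ℝ) ^ 2) (N : ℝ), ← div_mul_div_comm,
      div_self (by positivity), mul_one]
    exact div_le_div_of_nonneg_right h4 hNR.le
  · intro a ha
    obtain ⟨q, hq1, hq2⟩ := exists_rat_btwn (show s < a / 2 by linarith)
    have hq0 : (0 : ℝ) < q := hs.trans hq1
    have h1 := (h q (by exact_mod_cast hq0)).comp sqrt_tendsto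
    have h2 := h1.mul ratio_up
    rw [mul_one] at h2
    have h3 : ∀ᶠ N : ℕ in atTop, s * (((Nat.sqrt N : ℝ) + 1) ^ 2 / (Nat.sqrt N : ℝ) ^ 2) < q := by
      have := (ratio_aux.comp sqrt_tendsto).const_mul s
      rw [mul_one] at this
      exact this.eventually (gt_mem_nhds hq1)
    filter_upwards [h2.eventually (gt_mem_nhds (show 2 * (q : ℝ) < a by linarith)), h3, hpos]
      with N hN1 hN2 hN3
    refine lt_of_le_of_lt ?_ hN1
    have h0 : 0 < Nat.sqrt N := Nat.sqrt_pos.mpr hN3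
    have h0R : (0 : ℝ) < Nat.sqrt N := by exact_mod_cast h0
    have hNR : (0 : ℝ) < N := by exact_mod_cast hN3
    simp only [Function.comp]
    have h4 : (offr x N (s / N) : ℝ) ≤
        (offr x ((Nat.sqrt N + 1) ^ 2) ((q : ℝ) / ((Nat.sqrt N : ℝ) + 1) ^ 2) : ℝ) := by
      have : offr x N (s / N) ≤
          offr x ((Nat.sqrt N + 1) ^ 2) ((q : ℝ) / ((Nat.sqrt N : ℝ) + 1) ^ 2) := by
        apply offr_mono x (Nat.lt_succ_sqrt' N).le
        rw [div_le_div_iff₀ hNR (by positivity)]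
        have h5 : ((Nat.sqrt N : ℕ) : ℝ) ^ 2 ≤ N := by exact_mod_cast Nat.sqrt_le' N
        rw [← mul_div_assoc, div_lt_iff₀ (by positivity)] at hN2
        nlinarith
      exact_mod_cast this
    rw [div_mul_div_comm, mul_comm (((Nat.sqrt N : ℝ) + 1) ^ 2) (N : ℝ), ← div_mul_div_comm,
      div_self (by positivity), mul_one]
    exact div_le_div_of_nonneg_right h4 hNR.le

lemma exists_ppc : ∃ x : ℕ → ℝ, PPC x := by
  obtain ⟨ω, hω⟩ := exists_omega
  have hsurj : ∀ n, ∃ r : ℝ, (r : UnitAddCircle) = ω n := fun n =>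
    QuotientAddGroup.mk_surjective (ω n)
  choose x hx using hsurj
  refine ⟨x, ppc_of_squares x (fun s hs => ?_)⟩
  refine (hω s hs).congr (fun m => ?_)
  congr 2
  unfold offc offr
  congr 1
  apply Finset.filter_congr
  intro p _
  have : nd (x p.1 - x p.2) = ‖ω p.1 - ω p.2‖ := by
    rw [← hx, ← hx, ← AddCircle.coe_sub, UnitAddCircle.norm_eq]
    rfl
  rw [this]

end part2

section part3

/-! ### The integer sequence -/

def ell (n : ℕ) : ℕ := 10 * (n + 1)

def tt (n : ℕ) : ℕ := 5 * n * (n + 1)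

lemma tt_succ (n : ℕ) : tt (n + 1) = tt n + ell n := by unfold tt ell; ring

lemma tt_mono : Monotone tt := monotone_nat_of_le_succ (fun n => by rw [tt_succ]; omega)

def NN (k : ℕ) : ℕ := 2 ^ (4 ^ k)

def kap (k : ℕ) : ℕ := Nat.log 2 (k + 1) / 3

def nn (k : ℕ) : ℕ := 2 ^ (4 ^ k - kap k)

lemma kap_le (k : ℕ) : 2 * kap k + 1 ≤ 4 ^ k := by
  unfold kap
  have h1 : Nat.log 2 (k + 1) < k + 1 := Nat.log_lt_self 2 (by omega)
  have h2 : k < 4 ^ k := Nat.lt_pow_self (by norm_num)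
  omega

lemma pow_kap_le (k : ℕ) : (2 ^ kap k) ^ 3 ≤ k + 1 := by
  rw [← pow_mul]
  refine (Nat.pow_le_pow_right (by norm_num) (?_ : kap k * 3 ≤ Nat.log 2 (k + 1))).trans
    (Nat.pow_log_le_self 2 (by omega))
  unfold kap
  omega

lemma NN_eq (k : ℕ) : NN k = nn k * 2 ^ kap k := by
  unfold NN nn
  rw [← pow_add]
  congr 1
  have := kap_le k
  omega

lemma nn_pos (k : ℕ) : 0 < nn k := by unfold nn; positivity

lemma NN_pos (k : ℕ) : 0 < NN k := by unfold NN; positivity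

lemma nn_le_NN (k : ℕ) : nn k ≤ NN k := by
  rw [NN_eq]; exact Nat.le_mul_of_pos_right _ (by positivity)

lemma two_le_NN (k : ℕ) : 2 ≤ NN k := by
  unfold NN
  calc 2 = 2 ^ 1 := rfl
    _ ≤ 2 ^ (4 ^ k) := Nat.pow_le_pow_right (by norm_num) (Nat.one_le_pow _ _ (by norm_num))

lemma NN_succ (k : ℕ) : NN (k + 1) = NN k ^ 4 := by
  unfold NN
  rw [← pow_mul, pow_succ]

def kk (n : ℕ) : ℕ := Nat.log 4 (Nat.log 2 n)

/-- membership in one of the combs `[NN k, NN k + nn k)` -/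
def comb (n : ℕ) : Prop := 2 ≤ n ∧ n < NN (kk n) + nn (kk n)

instance : DecidablePred comb := fun n => by unfold comb; infer_instance

/-- starting index of the comb containing `n`, or `n` itself -/
def st (n : ℕ) : ℕ := if comb n then NN (kk n) else n

/-- the integer sequence -/
def aseq (n : ℕ) : ℕ := (n - st n + 1) * 2 ^ tt (st n)

lemma kk_of_mem (k n : ℕ) (h1 : NN k ≤ n) (h2 : n < NN (k + 1)) : kk n = k := by
  unfold kk
  have hn : n ≠ 0 := by have := NN_pos k; omega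
  have h3 : 4 ^ k ≤ Nat.log 2 n := Nat.le_log_of_pow_le (by norm_num) h1
  have h4 : Nat.log 2 n < 4 ^ (k + 1) := Nat.log_lt_of_lt_pow hn h2
  apply Nat.log_eq_of_pow_le_of_lt_pow h3 h4

lemma two_NN_lt (k : ℕ) : 2 * NN k < NN (k + 1) := by
  rw [NN_succ]
  have := two_le_NN k
  have h1 : NN k ^ 4 = NN k * (NN k ^ 3) := by ring
  have h2 : 2 ^ 3 ≤ NN k ^ 3 := Nat.pow_le_pow_left this 3
  rw [h1, mul_comm 2]
  apply Nat.mul_lt_mul_of_pos_left _ (NN_pos k)
  omega

lemma kk_comb (k i : ℕ) (hi : i < nn k) : kk (NN k + i) = k := by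
  apply kk_of_mem k _ (by omega)
  have := two_NN_lt k
  have := nn_le_NN k
  omega

lemma comb_mem (k i : ℕ) (hi : i < nn k) : comb (NN k + i) := by
  refine ⟨by have := two_le_NN k; omega, ?_⟩
  rw [kk_comb k i hi]
  omega

lemma st_comb (k i : ℕ) (hi : i < nn k) : st (NN k + i) = NN k := by
  unfold st
  rw [if_pos (comb_mem k i hi), kk_comb k i hi]

lemma NN_kk_le (n : ℕ) (hn : 2 ≤ n) : NN (kk n) ≤ n := by
  unfold NN kk
  have h1 : Nat.log 2 n ≠ 0 := (Nat.log_pos (by norm_num) hn).ne'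
  have h2 : 4 ^ Nat.log 4 (Nat.log 2 n) ≤ Nat.log 2 n := Nat.pow_log_le_self 4 h1
  exact (Nat.pow_le_pow_right (by norm_num) h2).trans (Nat.pow_log_le_self 2 (by omega))

lemma lt_NN_kk (n : ℕ) : n < NN (kk n + 1) := by
  unfold NN kk
  have h2 : Nat.log 2 n < 4 ^ (Nat.log 4 (Nat.log 2 n) + 1) :=
    Nat.lt_pow_succ_log_self (by norm_num) _
  exact (Nat.lt_pow_succ_log_self (by norm_num) n).trans_le
    (Nat.pow_le_pow_right (by norm_num) h2)

lemma comb_iff (n : ℕ) : comb n ↔ ∃ k i, i < nn k ∧ n = NN k + i := by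
  constructor
  · rintro ⟨h1, h2⟩
    have h3 := NN_kk_le n h1
    exact ⟨kk n, n - NN (kk n), by omega, by omega⟩
  · rintro ⟨k, i, hi, rfl⟩
    exact comb_mem k i hi

lemma st_le (n : ℕ) : st n ≤ n := by
  unfold st
  split_ifs with h
  · exact NN_kk_le n h.1
  · exact le_rfl

lemma aseq_comb (k i : ℕ) (hi : i < nn k) : aseq (NN k + i) = (i + 1) * 2 ^ tt (NN k) := by
  unfold aseq
  rw [st_comb k i hi]
  congr 2
  omega

lemma aseq_not_comb (n : ℕ) (hn : ¬ comb n) : aseq n = 2 ^ tt n := by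
  unfold aseq st
  rw [if_neg hn]
  simp

lemma aseq_lt (n : ℕ) : aseq n < 2 ^ tt (n + 1) := by
  unfold aseq
  have h1 : 2 ^ tt (st n) ≤ 2 ^ tt n := Nat.pow_le_pow_right (by norm_num) (tt_mono (st_le n))
  have h2 : n - st n + 1 ≤ n + 1 := by omega
  have h3 : n + 1 < 2 ^ ell n := by
    have : n + 1 < 2 ^ (n + 1) := Nat.lt_two_pow_self
    refine this.trans_le (Nat.pow_le_pow_right (by norm_num) ?_)
    unfold ell; omega
  calc (n - st n + 1) * 2 ^ tt (st n) ≤ (n + 1) * 2 ^ tt n := Nat.mul_le_mul h2 h1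
    _ < 2 ^ ell n * 2 ^ tt n := Nat.mul_lt_mul_of_pos_right h3 (by positivity)
    _ = 2 ^ tt (n + 1) := by rw [tt_succ, ← pow_add, add_comm]

lemma aseq_pos (n : ℕ) : 0 < aseq n := by unfold aseq; positivity

lemma aseq_strictMono : StrictMono aseq := by
  apply strictMono_nat_of_lt_succ
  intro n
  by_cases h : comb (n + 1)
  · obtain ⟨k, i, hi, hn⟩ := (comb_iff _).mp h
    rcases i with _ | i
    · have h0 : NN k = n + 1 := by omega
      have h1 := aseq_comb k 0 hi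
      rw [← hn, h0, zero_add, one_mul] at h1
      rw [h1]
      exact aseq_lt n
    · have hn' : n = NN k + i := by omega
      rw [hn, aseq_comb k (i + 1) hi, hn', aseq_comb k i (by omega)]
      exact Nat.mul_lt_mul_of_pos_right (by omega) (by positivity)
  · rw [aseq_not_comb _ h]
    exact aseq_lt n

end part3

section part4

/-! ### Realisation of arbitrary targets by `2^{t_n} α` -/

lemma realize (v : ℕ → ℝ) : ∃ α : ℝ, ∀ n, nd ((2 : ℝ) ^ tt n * α - v n) ≤ 2 * (1 / 2) ^ ell n := by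
  let w : ℕ → ℤ := fun n => ⌊(2 : ℝ) ^ ell n * Int.fract (v n)⌋
  have hw0 : ∀ n, 0 ≤ w n := fun n =>
    Int.floor_nonneg.mpr (mul_nonneg (by positivity) (Int.fract_nonneg _))
  have hw1 : ∀ n, (w n : ℝ) + 1 ≤ 2 ^ ell n := by
    intro n
    have h1 : (2 : ℝ) ^ ell n * Int.fract (v n) < 2 ^ ell n := by
      have := Int.fract_lt_one (v n)
      have h2 : (0 : ℝ) < 2 ^ ell n := by positivity
      nlinarith
    have h2 : w n < 2 ^ ell n := by
      rw [Int.floor_lt]
      push_cast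
      exact h1
    have h3 : w n + 1 ≤ 2 ^ ell n := h2
    exact_mod_cast h3
  let A : ℕ → ℝ := fun n => ∑ m ∈ range n, (w m : ℝ) * (1 / 2) ^ tt (m + 1)
  have hA_succ : ∀ n, A (n + 1) = A n + (w n : ℝ) * (1 / 2) ^ tt (n + 1) := fun n =>
    Finset.sum_range_succ _ _
  have hpow : ∀ n, (1 / 2 : ℝ) ^ tt n = 2 ^ ell n * (1 / 2) ^ tt (n + 1) := by
    intro n
    rw [tt_succ, pow_add, mul_comm ((1 / 2 : ℝ) ^ tt n), ← mul_assoc, ← mul_pow]
    norm_num
  have hmono : Monotone A := by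
    apply monotone_nat_of_le_succ
    intro n
    rw [hA_succ]
    have : (0 : ℝ) ≤ w n := by exact_mod_cast hw0 n
    have : (0 : ℝ) ≤ (w n : ℝ) * (1 / 2) ^ tt (n + 1) := by positivity
    linarith
  have hanti : Antitone (fun n => A n + (1 / 2 : ℝ) ^ tt n) := by
    apply antitone_nat_of_succ_le
    intro n
    rw [hA_succ, hpow n]
    have h1 := hw1 n
    have h2 : (0 : ℝ) < (1 / 2) ^ tt (n + 1) := by positivity
    nlinarith
  have hle : ∀ m n, A m ≤ A n + (1 / 2 : ℝ) ^ tt n := by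
    intro m n
    have h1 : A m ≤ A (max m n) := hmono (le_max_left _ _)
    have h2 : A (max m n) + (1 / 2 : ℝ) ^ tt (max m n) ≤ A n + (1 / 2 : ℝ) ^ tt n :=
      hanti (le_max_right _ _)
    have h3 : (0 : ℝ) < (1 / 2 : ℝ) ^ tt (max m n) := by positivity
    linarith
  have hbdd : BddAbove (Set.range A) := ⟨A 0 + (1 / 2 : ℝ) ^ tt 0, by
    rintro _ ⟨m, rfl⟩
    exact hle m 0⟩
  refine ⟨⨆ n, A n, fun n => ?_⟩
  set α := ⨆ n, A n with hα
  have h1 : A (n + 1) ≤ α := le_ciSup hbdd (n + 1)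
  have h2 : α ≤ A (n + 1) + (1 / 2 : ℝ) ^ tt (n + 1) := ciSup_le (fun m => hle m (n + 1))
  -- the integer part
  have hint : ∃ I : ℤ, (2 : ℝ) ^ tt n * A n = I := by
    refine ⟨∑ m ∈ range n, w m * 2 ^ (tt n - tt (m + 1)), ?_⟩
    push_cast
    show (2 : ℝ) ^ tt n * ∑ m ∈ range n, (w m : ℝ) * (1 / 2) ^ tt (m + 1) = _
    rw [Finset.mul_sum]
    refine Finset.sum_congr rfl (fun m hm => ?_)
    have hmn : tt (m + 1) ≤ tt n := tt_mono (Finset.mem_range.mp hm)
    have h3 : (2 : ℝ) ^ tt n = 2 ^ (tt n - tt (m + 1)) * 2 ^ tt (m + 1) := by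
      rw [← pow_add]; congr 1; omega
    rw [h3]
    have h4 : (2 : ℝ) ^ tt (m + 1) * (1 / 2) ^ tt (m + 1) = 1 := by
      rw [← mul_pow]; norm_num
    calc (2 : ℝ) ^ (tt n - tt (m + 1)) * 2 ^ tt (m + 1) * ((w m : ℝ) * (1 / 2) ^ tt (m + 1))
        = (w m : ℝ) * 2 ^ (tt n - tt (m + 1)) * (2 ^ tt (m + 1) * (1 / 2) ^ tt (m + 1)) := by ring
      _ = (w m : ℝ) * 2 ^ (tt n - tt (m + 1)) := by rw [h4, mul_one]
  obtain ⟨I, hI⟩ := hint
  have hfl1 := Int.floor_le ((2 : ℝ) ^ ell n * Int.fract (v n))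
  have hfl2 := Int.lt_floor_add_one ((2 : ℝ) ^ ell n * Int.fract (v n))
  have hv : v n = ⌊v n⌋ + Int.fract (v n) := (Int.floor_add_fract _).symm
  have hE : (0 : ℝ) < 2 ^ ell n := by positivity
  have hEE : (2 : ℝ) ^ ell n * (1 / 2) ^ ell n = 1 := by rw [← mul_pow]; norm_num
  have hT : (2 : ℝ) ^ tt n * (1 / 2) ^ tt (n + 1) = (1 / 2) ^ ell n := by
    rw [tt_succ, pow_add, ← mul_assoc, ← mul_pow]
    norm_num
  have hT0 : (0 : ℝ) < 2 ^ tt n := by positivity
  refine (nd_le _ (I - ⌊v n⌋)).trans ?_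
  -- decompose
  have h5 : (2 : ℝ) ^ tt n * α - v n - ((I - ⌊v n⌋ : ℤ) : ℝ) =
      2 ^ tt n * (α - A (n + 1)) + ((w n : ℝ) * (1 / 2) ^ ell n - Int.fract (v n)) := by
    have h6 : (2 : ℝ) ^ tt n * A (n + 1) = I + (w n : ℝ) * (1 / 2) ^ ell n := by
      rw [hA_succ, mul_add, hI, ← hT]; ring
    rw [mul_sub, h6]
    push_cast
    have : v n - ⌊v n⌋ = Int.fract (v n) := Int.self_sub_floor _
    linarith
  rw [h5]
  have h6 : 0 ≤ 2 ^ tt n * (α - A (n + 1)) := mul_nonneg hT0.le (by linarith)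
  have h7 : 2 ^ tt n * (α - A (n + 1)) ≤ (1 / 2) ^ ell n := by
    rw [← hT]
    exact mul_le_mul_of_nonneg_left (by linarith) hT0.le
  have hHE : (0 : ℝ) < (1 / 2) ^ ell n := by positivity
  have h8 : (w n : ℝ) * (1 / 2) ^ ell n ≤ Int.fract (v n) := by
    have := mul_le_mul_of_nonneg_right hfl1 hHE.le
    have h9 : (2 : ℝ) ^ ell n * Int.fract (v n) * (1 / 2) ^ ell n = Int.fract (v n) := by
      calc (2 : ℝ) ^ ell n * Int.fract (v n) * (1 / 2) ^ ell n
          = Int.fract (v n) * ((2 : ℝ) ^ ell n * (1 / 2) ^ ell n) := by ring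
        _ = Int.fract (v n) := by rw [hEE, mul_one]
    rw [h9] at this
    exact this
  have h9 : Int.fract (v n) ≤ (w n : ℝ) * (1 / 2) ^ ell n + (1 / 2) ^ ell n := by
    have := mul_le_mul_of_nonneg_right hfl2.le hHE.le
    have h10 : (2 : ℝ) ^ ell n * Int.fract (v n) * (1 / 2) ^ ell n = Int.fract (v n) := by
      calc (2 : ℝ) ^ ell n * Int.fract (v n) * (1 / 2) ^ ell n
          = Int.fract (v n) * ((2 : ℝ) ^ ell n * (1 / 2) ^ ell n) := by ring
        _ = Int.fract (v n) := by rw [hEE, mul_one]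
    rw [h10] at this
    refine this.trans (le_of_eq ?_)
    show ((w n : ℝ) + 1) * (1 / 2) ^ ell n = _
    ring
  rw [abs_le]
  constructor <;> linarith

lemma nd_nat_mul (m : ℕ) (y : ℝ) : nd (m * y) ≤ m * nd y := by
  refine (nd_le (m * y) (m * round y)).trans (le_of_eq ?_)
  unfold nd
  push_cast
  rw [← mul_sub, abs_mul, Nat.abs_cast]

end part4

section part5

/-- off-diagonal close pairs inside `A` -/
noncomputable def offA (x : ℕ → ℝ) (A : Finset ℕ) (δ : ℝ) : ℕ :=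
  (A.offDiag.filter fun p => nd (x p.1 - x p.2) < δ).card

lemma offr_eq (x : ℕ → ℝ) (N : ℕ) (δ : ℝ) : offr x N δ = offA x (range N) δ := rfl

lemma offA_mono (x : ℕ → ℝ) {A B : Finset ℕ} {δ δ' : ℝ} (hA : A ⊆ B) (hδ : δ ≤ δ') :
    offA x A δ ≤ offA x B δ' := by
  unfold offA
  apply Finset.card_le_card
  intro p hp
  rw [Finset.mem_filter, Finset.mem_offDiag] at hp ⊢
  exact ⟨⟨hA hp.1.1, hA hp.1.2.1, hp.1.2.2⟩, hp.2.trans_le hδ⟩

lemma Q_self (x : ℕ → ℝ) (A : Finset ℕ) (δ : ℝ) (hδ : 0 < δ) :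
    Q x A A δ = A.card + offA x A δ := by
  classical
  unfold Q offA
  rw [← Finset.diag_union_offDiag, Finset.filter_union, Finset.card_union_of_disjoint]
  · congr 1
    rw [Finset.filter_true_of_mem, Finset.diag_card]
    intro p hp
    rw [Finset.mem_diag] at hp
    rw [hp.2, sub_self, nd_zero]
    exact hδ
  · exact Finset.disjoint_filter_filter (Finset.disjoint_diag_offDiag A)

lemma Q_comm (x : ℕ → ℝ) (A B : Finset ℕ) (δ : ℝ) : Q x A B δ = Q x B A δ := by
  unfold Q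
  apply Finset.card_bij (fun p _ => (p.2, p.1))
  · intro p hp
    rw [Finset.mem_filter, Finset.mem_product] at hp ⊢
    exact ⟨⟨hp.1.2, hp.1.1⟩, by rw [nd_sub_comm]; exact hp.2⟩
  · intro p _ q _ h
    simp only [Prod.mk.injEq] at h
    exact Prod.ext h.2 h.1
  · intro p hp
    refine ⟨(p.2, p.1), ?_, rfl⟩
    rw [Finset.mem_filter, Finset.mem_product] at hp ⊢
    exact ⟨⟨hp.1.2, hp.1.1⟩, by rw [nd_sub_comm]; exact hp.2⟩

lemma Q_le_card_sq (x : ℕ → ℝ) (A : Finset ℕ) (δ : ℝ) : Q x A A δ ≤ A.card ^ 2 := by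
  unfold Q
  refine (Finset.card_filter_le _ _).trans (le_of_eq ?_)
  rw [Finset.card_product, sq]

lemma offA_union_le (x : ℕ → ℝ) (C D : Finset ℕ) (δ : ℝ) :
    offA x (C ∪ D) δ ≤ offA x C δ + 2 * Q x C D δ + Q x D D δ := by
  classical
  have h1 : (C ∪ D).offDiag.filter (fun p => nd (x p.1 - x p.2) < δ) ⊆
      (C.offDiag.filter fun p => nd (x p.1 - x p.2) < δ) ∪
      (((C ×ˢ D).filter fun p => nd (x p.1 - x p.2) < δ) ∪
      (((D ×ˢ C).filter fun p => nd (x p.1 - x p.2) < δ) ∪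
      ((D ×ˢ D).filter fun p => nd (x p.1 - x p.2) < δ))) := by
    intro p hp
    simp only [Finset.mem_filter, Finset.mem_offDiag, Finset.mem_union,
      Finset.mem_product] at hp ⊢
    tauto
  have h2 := Finset.card_le_card h1
  have h3 := h2.trans (Finset.card_union_le _ _)
  have h4 := Finset.card_union_le ((C ×ˢ D).filter fun p => nd (x p.1 - x p.2) < δ)
    (((D ×ˢ C).filter fun p => nd (x p.1 - x p.2) < δ) ∪
      ((D ×ˢ D).filter fun p => nd (x p.1 - x p.2) < δ))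
  have h5 := Finset.card_union_le ((D ×ˢ C).filter fun p => nd (x p.1 - x p.2) < δ)
      ((D ×ˢ D).filter fun p => nd (x p.1 - x p.2) < δ)
  have h6 := Q_comm x D C δ
  unfold offA
  unfold Q at *
  omega

lemma Q_union_le (x : ℕ → ℝ) (A B : Finset ℕ) (δ : ℝ) :
    Q x (A ∪ B) (A ∪ B) δ ≤ Q x A A δ + 2 * Q x A B δ + Q x B B δ := by
  classical
  have h1 : ((A ∪ B) ×ˢ (A ∪ B)).filter (fun p => nd (x p.1 - x p.2) < δ) ⊆
      ((A ×ˢ A).filter fun p => nd (x p.1 - x p.2) < δ) ∪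
      (((A ×ˢ B).filter fun p => nd (x p.1 - x p.2) < δ) ∪
      (((B ×ˢ A).filter fun p => nd (x p.1 - x p.2) < δ) ∪
      ((B ×ˢ B).filter fun p => nd (x p.1 - x p.2) < δ))) := by
    intro p hp
    simp only [Finset.mem_filter, Finset.mem_union, Finset.mem_product] at hp ⊢
    tauto
  have h2 := Finset.card_le_card h1
  have h3 := h2.trans (Finset.card_union_le _ _)
  have h4 := Finset.card_union_le ((A ×ˢ B).filter fun p => nd (x p.1 - x p.2) < δ)
    (((B ×ˢ A).filter fun p => nd (x p.1 - x p.2) < δ) ∪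
      ((B ×ˢ B).filter fun p => nd (x p.1 - x p.2) < δ))
  have h5 := Finset.card_union_le ((B ×ˢ A).filter fun p => nd (x p.1 - x p.2) < δ)
      ((B ×ˢ B).filter fun p => nd (x p.1 - x p.2) < δ)
  have h6 := Q_comm x B A δ
  unfold Q at *
  omega

lemma Q_cs_real (x : ℕ → ℝ) (A B : Finset ℕ) (δ : ℝ) (hδ0 : 0 < δ) (hδ1 : δ ≤ 1) :
    (Q x A B δ : ℝ) ≤ 5 * Real.sqrt ((Q x A A δ : ℝ) * (Q x B B δ : ℝ)) := by
  have h := Q_cs x A B δ hδ0 hδ1
  have h1 : ((Q x A B δ : ℕ) : ℝ) ^ 2 ≤ 25 * ((Q x A A δ : ℝ) * (Q x B B δ : ℝ)) := by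
    exact_mod_cast h
  have h2 : (Q x A B δ : ℝ) ≤ Real.sqrt (25 * ((Q x A A δ : ℝ) * (Q x B B δ : ℝ))) :=
    Real.le_sqrt_of_sq_le h1
  refine h2.trans (le_of_eq ?_)
  rw [Real.sqrt_mul (by norm_num)]
  congr 1
  rw [show (25 : ℝ) = 5 ^ 2 by norm_num]
  exact Real.sqrt_sq (by norm_num)

lemma Q_union_le6 (x : ℕ → ℝ) (A B : Finset ℕ) (δ : ℝ) (hδ0 : 0 < δ) (hδ1 : δ ≤ 1) :
    Q x (A ∪ B) (A ∪ B) δ ≤ 6 * (Q x A A δ + Q x B B δ) := by
  have h1 := Q_union_le x A B δ
  have h2 := Q_cs x A B δ hδ0 hδ1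
  set a := Q x A A δ
  set b := Q x B B δ
  set c := Q x A B δ
  have h3 : 2 * c ≤ 5 * (a + b) := by
    by_contra h
    push Not at h
    have h4 : (5 * (a + b)) ^ 2 < (2 * c) ^ 2 := Nat.pow_lt_pow_left h (by norm_num)
    nlinarith [sq_nonneg ((a : ℤ) - b), Nat.zero_le a, Nat.zero_le b]
  omega

/-- comparison of the pairs in `C` with pairs of the reference sequence -/
lemma offA_compare (z y : ℕ → ℝ) (ρ : ℕ → ℕ) (C R : Finset ℕ) (δ e : ℝ)
    (hinj : Set.InjOn ρ (C : Set ℕ)) (hR : C.image ρ ⊆ R)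
    (he : ∀ n ∈ C, nd (z n - y (ρ n)) ≤ e) :
    offA z C δ ≤ offA y R (δ + 2 * e) := by
  classical
  unfold offA
  apply Finset.card_le_card_of_injOn (fun p => (ρ p.1, ρ p.2))
  · intro p hp
    simp only [Finset.mem_coe, Finset.mem_filter, Finset.mem_offDiag] at hp ⊢
    obtain ⟨⟨h1, h2, h3⟩, h4⟩ := hp
    refine ⟨⟨hR (Finset.mem_image_of_mem _ h1), hR (Finset.mem_image_of_mem _ h2),
      fun h => h3 (hinj h1 h2 h)⟩, ?_⟩
    have h5 : y (ρ p.1) - y (ρ p.2) =
        (z p.1 - z p.2) + (-(z p.1 - y (ρ p.1)) + (z p.2 - y (ρ p.2))) := by ring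
    rw [h5]
    have h6 := nd_add_le (z p.1 - z p.2) (-(z p.1 - y (ρ p.1)) + (z p.2 - y (ρ p.2)))
    have h7 := nd_add_le (-(z p.1 - y (ρ p.1))) (z p.2 - y (ρ p.2))
    rw [nd_neg] at h7
    have h8 := he _ h1
    have h9 := he _ h2
    linarith
  · intro p hp q hq h
    simp only [Finset.mem_coe, Finset.mem_filter, Finset.mem_offDiag] at hp hq
    simp only [Prod.mk.injEq] at h
    exact Prod.ext (hinj hp.1.1 hq.1.1 h.1) (hinj hp.1.2.1 hq.1.2.1 h.2)

lemma offA_compare' (z y : ℕ → ℝ) (ρ : ℕ → ℕ) (C : Finset ℕ) (δ e : ℝ)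
    (he : ∀ n ∈ C, nd (z n - y (ρ n)) ≤ e) :
    offA y (C.image ρ) δ ≤ offA z C (δ + 2 * e) := by
  classical
  unfold offA
  -- choose preimages
  have hex : ∀ m ∈ C.image ρ, ∃ n ∈ C, ρ n = m := fun m hm => by
    rw [Finset.mem_image] at hm
    exact hm
  choose! g hg1 hg2 using hex
  apply Finset.card_le_card_of_injOn (fun p => (g p.1, g p.2))
  · intro p hp
    simp only [Finset.mem_coe, Finset.mem_filter, Finset.mem_offDiag] at hp ⊢
    obtain ⟨⟨h1, h2, h3⟩, h4⟩ := hp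
    refine ⟨⟨hg1 _ h1, hg1 _ h2, fun h => h3 ?_⟩, ?_⟩
    · rw [← hg2 _ h1, ← hg2 _ h2, h]
    · have h5 : z (g p.1) - z (g p.2) = (y p.1 - y p.2) +
          ((z (g p.1) - y (ρ (g p.1))) + -(z (g p.2) - y (ρ (g p.2)))) := by
        rw [hg2 _ h1, hg2 _ h2]; ring
      rw [h5]
      have h6 := nd_add_le (y p.1 - y p.2)
        ((z (g p.1) - y (ρ (g p.1))) + -(z (g p.2) - y (ρ (g p.2))))
      have h7 := nd_add_le (z (g p.1) - y (ρ (g p.1))) (-(z (g p.2) - y (ρ (g p.2))))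
      rw [nd_neg] at h7
      have h8 := he _ (hg1 _ h1)
      have h9 := he _ (hg1 _ h2)
      linarith
  · intro p hp q hq h
    simp only [Finset.mem_coe, Finset.mem_filter, Finset.mem_offDiag] at hp hq
    simp only [Prod.mk.injEq] at h
    apply Prod.ext
    · rw [← hg2 _ hp.1.1, ← hg2 _ hq.1.1, h.1]
    · rw [← hg2 _ hp.1.2.1, ← hg2 _ hq.1.2.1, h.2]

end part5

section part6

lemma cross_bound (x : ℕ → ℝ) (C D : Finset ℕ) (δ : ℝ) (hδ0 : 0 < δ) (hδ1 : δ ≤ 1) (N : ℝ)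
    (hN : 0 < N) (F : ℝ) (hC : (Q x C C δ : ℝ) ≤ N * (1 + F)) (q : ℝ)
    (hq : (Q x D D δ : ℝ) ≤ N * q) :
    (2 * Q x C D δ : ℝ) / N ≤ 10 * Real.sqrt ((1 + F) * q) := by
  have h1 := Q_cs_real x C D δ hδ0 hδ1
  have h0 : (0 : ℝ) ≤ Q x C C δ := Nat.cast_nonneg _
  have h0' : (0 : ℝ) ≤ Q x D D δ := Nat.cast_nonneg _
  have h2 : Real.sqrt ((Q x C C δ : ℝ) * (Q x D D δ : ℝ)) ≤ N * Real.sqrt ((1 + F) * q) := by
    have h3 : N * Real.sqrt ((1 + F) * q) = Real.sqrt (N ^ 2 * ((1 + F) * q)) := by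
      rw [Real.sqrt_mul (sq_nonneg N) ((1 + F) * q), Real.sqrt_sq hN.le]
    rw [h3]
    apply Real.sqrt_le_sqrt
    calc (Q x C C δ : ℝ) * (Q x D D δ : ℝ) ≤ (N * (1 + F)) * (N * q) :=
          mul_le_mul hC hq h0' (h0.trans hC)
      _ = N ^ 2 * ((1 + F) * q) := by ring
  rw [div_le_iff₀ hN]
  linarith

theorem ppc_compare (z y : ℕ → ℝ) (hy : PPC y) (ρ : ℕ → ℕ) (C D D' : ℕ → Finset ℕ) (M : ℕ → ℕ)
    (e : ℕ → ℝ)
    (hCD : ∀ N, C N ∪ D N = range N)
    (hinj : ∀ N, Set.InjOn ρ (C N : Set ℕ))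
    (hM : ∀ N, M N ≤ N)
    (him : ∀ N, (C N).image ρ ⊆ range (M N))
    (him' : ∀ N, range (M N) ⊆ (C N).image ρ ∪ D' N)
    (he : ∀ N, ∀ n ∈ C N, nd (z n - y (ρ n)) ≤ e N)
    (heN : Tendsto (fun N : ℕ => (N : ℝ) * e N) atTop (𝓝 0))
    (hMN : Tendsto (fun N : ℕ => (M N : ℝ) / N) atTop (𝓝 1))
    (hD : ∀ s : ℝ, 0 < s → Tendsto (fun N : ℕ => (Q z (D N) (D N) (s / N) : ℝ) / N) atTop (𝓝 0))
    (hD' : Tendsto (fun N : ℕ => ((D' N).card : ℝ) ^ 2 / N) atTop (𝓝 0)) : PPC z := by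
  intro s hs
  have hpos : ∀ᶠ N : ℕ in atTop, 1 ≤ N := eventually_ge_atTop 1
  have hsN : ∀ᶠ N : ℕ in atTop, s / (N : ℝ) ≤ 1 := by
    have h1 : Tendsto (fun N : ℕ => s / (N : ℝ)) atTop (𝓝 0) := tendsto_const_div_atTop_nhds_zero_nat s
    exact (h1.eventually (gt_mem_nhds one_pos)).mono (fun N h => h.le)
  have hCr : ∀ N, C N ⊆ range N := fun N => by rw [← hCD N]; exact Finset.subset_union_left
  have hCc : ∀ N, ((C N).card : ℝ) ≤ N := fun N => by
    have := Finset.card_le_card (hCr N)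
    rw [card_range] at this
    exact_mod_cast this
  have heη : ∀ η : ℝ, 0 < η → ∀ᶠ N : ℕ in atTop, 2 * e N ≤ η / N := by
    intro η hη
    filter_upwards [heN.eventually (gt_mem_nhds (half_pos hη)), hpos] with N h1 h2
    have hNR : (0 : ℝ) < N := by exact_mod_cast h2
    rw [le_div_iff₀ hNR]
    linarith
  rw [tendsto_order]
  constructor
  · -- lower bound
    intro a ha
    set b : ℝ := max (a / 2) 0 with hb
    have hbs : b < s := max_lt (by linarith) hs
    have hb0 : 0 ≤ b := le_max_right _ _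
    have hba : a / 2 ≤ b := le_max_left _ _
    set η : ℝ := (s - b) / 4 with hη
    have hη0 : 0 < η := by rw [hη]; linarith
    have hsη : 0 < s - 2 * η := by rw [hη]; linarith
    have hMtop : Tendsto M atTop atTop := by
      have h1 : Tendsto (fun N : ℕ => (M N : ℝ) / N * N) atTop atTop :=
        Tendsto.pos_mul_atTop one_pos hMN tendsto_natCast_atTop_atTop
      have h2 : Tendsto (fun N : ℕ => (M N : ℝ)) atTop atTop := by
        refine h1.congr' ?_
        filter_upwards [hpos] with N hN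
        have : (N : ℝ) ≠ 0 := by positivity
        field_simp
      exact tendsto_natCast_atTop_iff.mp h2
    have hG : Tendsto (fun N : ℕ => (offr y (M N) ((s - 2 * η) / (M N)) : ℝ) / (M N)) atTop
        (𝓝 (2 * (s - 2 * η))) := (hy _ hsη).comp hMtop
    have hH : Tendsto (fun N : ℕ => (offr y N ((s - η) / N) : ℝ) / N) atTop
        (𝓝 (2 * (s - η))) := hy _ (by linarith)
    have hlim : Tendsto (fun N : ℕ => (offr y (M N) ((s - 2 * η) / (M N)) : ℝ) / (M N) *
        ((M N : ℝ) / N) - (10 * Real.sqrt ((1 + (offr y N ((s - η) / N) : ℝ) / N) *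
        (((D' N).card : ℝ) ^ 2 / N)) + ((D' N).card : ℝ) ^ 2 / N)) atTop
        (𝓝 (2 * (s - 2 * η) * 1 - (10 * Real.sqrt ((1 + 2 * (s - η)) * 0) + 0))) := by
      refine (hG.mul hMN).sub (Tendsto.add ?_ hD')
      refine Tendsto.const_mul _ ?_
      exact (Real.continuous_sqrt.tendsto _).comp ((tendsto_const_nhds.add hH).mul hD')
    rw [mul_zero, Real.sqrt_zero, mul_zero, add_zero, sub_zero, mul_one] at hlim
    have hfin : a < 2 * (s - 2 * η) := by rw [hη]; linarith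
    have hMev : ∀ᶠ N : ℕ in atTop, (s - 2 * η) < (s - η) * ((M N : ℝ) / N) := by
      have h1 := hMN.const_mul (s - η)
      rw [mul_one] at h1
      exact h1.eventually (lt_mem_nhds (by linarith))
    filter_upwards [hlim.eventually (lt_mem_nhds hfin), hpos, hsN, heη η hη0, hMev,
      hMtop.eventually (eventually_ge_atTop 1)] with N h1 h2 h3 h4 h5 h6
    refine h1.trans_le ?_
    have hNR : (0 : ℝ) < N := by exact_mod_cast h2
    have hMR : (0 : ℝ) < M N := by exact_mod_cast h6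
    have hδ0 : 0 < (s - η) / N := div_pos (by linarith) hNR
    have hδ1 : (s - η) / N ≤ 1 :=
      (div_le_div_of_nonneg_right (by linarith) hNR.le).trans h3
    -- compare the reference pairs
    have h7 : offr y (M N) ((s - 2 * η) / (M N)) ≤ offA y ((C N).image ρ ∪ D' N) ((s - η) / N) := by
      rw [offr_eq]
      apply offA_mono y (him' N)
      rw [div_le_div_iff₀ hMR hNR]
      have h5' := mul_lt_mul_of_pos_right h5 hNR
      have h5'' : (s - η) * ((M N : ℝ) / N) * N = (s - η) * M N := by field_simp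
      rw [h5''] at h5'
      exact h5'.le
    have h8 := h7.trans (offA_union_le y ((C N).image ρ) (D' N) ((s - η) / N))
    have h9 : offA y ((C N).image ρ) ((s - η) / N) ≤ offr z N (s / N) := by
      refine (offA_compare' z y ρ (C N) _ (e N) (he N)).trans ?_
      rw [offr_eq]
      apply offA_mono z (hCr N)
      have : (s - η) / N + 2 * e N ≤ (s - η) / N + η / N := by linarith
      refine this.trans (le_of_eq ?_)
      rw [← add_div]; congr 1; ring
    have h10 : (Q y ((C N).image ρ) ((C N).image ρ) ((s - η) / N) : ℝ) ≤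
        N * (1 + (offr y N ((s - η) / N) : ℝ) / N) := by
      rw [Q_self _ _ _ hδ0]
      push_cast
      have h11 : (((C N).image ρ).card : ℝ) ≤ N := by
        refine le_trans ?_ (hCc N)
        exact_mod_cast Finset.card_image_le
      have h12 : (offA y ((C N).image ρ) ((s - η) / N) : ℝ) ≤ offr y N ((s - η) / N) := by
        have : offA y ((C N).image ρ) ((s - η) / N) ≤ offr y N ((s - η) / N) := by
          rw [offr_eq]
          apply offA_mono y _ le_rfl
          exact (him N).trans (Finset.range_mono (hM N))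
        exact_mod_cast this
      have h13 : (N : ℝ) * (1 + (offr y N ((s - η) / N) : ℝ) / N) =
          N + offr y N ((s - η) / N) := by field_simp
      rw [h13]
      linarith
    have h11 : (Q y (D' N) (D' N) ((s - η) / N) : ℝ) ≤ N * (((D' N).card : ℝ) ^ 2 / N) := by
      have : (N : ℝ) * (((D' N).card : ℝ) ^ 2 / N) = ((D' N).card : ℝ) ^ 2 := by field_simp
      rw [this]
      exact_mod_cast Q_le_card_sq y (D' N) ((s - η) / N)
    have h12 := cross_bound y ((C N).image ρ) (D' N) _ hδ0 hδ1 N hNR _ h10 _ h11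
    have h13 : (offr y (M N) ((s - 2 * η) / (M N)) : ℝ) ≤ offr z N (s / N) +
        2 * Q y ((C N).image ρ) (D' N) ((s - η) / N) + Q y (D' N) (D' N) ((s - η) / N) := by
      have : offr y (M N) ((s - 2 * η) / (M N)) ≤ offr z N (s / N) +
        2 * Q y ((C N).image ρ) (D' N) ((s - η) / N) + Q y (D' N) (D' N) ((s - η) / N) := by omega
      exact_mod_cast this
    have h14 : (offr y (M N) ((s - 2 * η) / (M N)) : ℝ) / (M N) * ((M N : ℝ) / N) =
        (offr y (M N) ((s - 2 * η) / (M N)) : ℝ) / N := by field_simp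
    rw [h14]
    have h15 := div_le_div_of_nonneg_right h13 hNR.le
    rw [add_div, add_div] at h15
    have h16 : (Q y (D' N) (D' N) ((s - η) / N) : ℝ) / N ≤ ((D' N).card : ℝ) ^ 2 / N := by
      apply div_le_div_of_nonneg_right _ hNR.le
      exact_mod_cast Q_le_card_sq y (D' N) ((s - η) / N)
    linarith
  · -- upper bound
    intro a ha
    set η : ℝ := (a - 2 * s) / 4 with hη
    have hη0 : 0 < η := by rw [hη]; linarith
    have hF : Tendsto (fun N : ℕ => (offr y N ((s + η) / N) : ℝ) / N) atTop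
        (𝓝 (2 * (s + η))) := hy _ (by linarith)
    have hlim : Tendsto (fun N : ℕ => (offr y N ((s + η) / N) : ℝ) / N +
        (10 * Real.sqrt ((1 + (offr y N ((s + η) / N) : ℝ) / N) *
        ((Q z (D N) (D N) (s / N) : ℝ) / N)) + (Q z (D N) (D N) (s / N) : ℝ) / N)) atTop
        (𝓝 (2 * (s + η) + (10 * Real.sqrt ((1 + 2 * (s + η)) * 0) + 0))) := by
      refine hF.add (Tendsto.add ?_ (hD s hs))
      refine Tendsto.const_mul _ ?_
      exact (Real.continuous_sqrt.tendsto _).comp ((tendsto_const_nhds.add hF).mul (hD s hs))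
    rw [mul_zero, Real.sqrt_zero, mul_zero, add_zero, add_zero] at hlim
    have hfin : 2 * (s + η) < a := by rw [hη]; linarith
    filter_upwards [hlim.eventually (gt_mem_nhds hfin), hpos, hsN, heη η hη0] with N h1 h2 h3 h4
    refine lt_of_le_of_lt ?_ h1
    have hNR : (0 : ℝ) < N := by exact_mod_cast h2
    have hδ0 : 0 < s / N := div_pos hs hNR
    have h5 : offr z N (s / N) ≤ offA z (C N) (s / N) + 2 * Q z (C N) (D N) (s / N) +
        Q z (D N) (D N) (s / N) := by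
      rw [offr_eq, ← hCD N]
      exact offA_union_le z (C N) (D N) (s / N)
    have h6 : offA z (C N) (s / N) ≤ offr y N ((s + η) / N) := by
      refine (offA_compare z y ρ (C N) (range (M N)) _ (e N) (hinj N) (him N) (he N)).trans ?_
      rw [offr_eq]
      apply offA_mono y (Finset.range_mono (hM N))
      rw [add_div]
      linarith
    have h6R : (offA z (C N) (s / N) : ℝ) ≤ offr y N ((s + η) / N) := by exact_mod_cast h6
    have h7 : (Q z (C N) (C N) (s / N) : ℝ) ≤ N * (1 + (offr y N ((s + η) / N) : ℝ) / N) := by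
      rw [Q_self _ _ _ hδ0]
      push_cast
      have h13 : (N : ℝ) * (1 + (offr y N ((s + η) / N) : ℝ) / N) =
          N + offr y N ((s + η) / N) := by field_simp
      rw [h13]
      have := hCc N
      linarith
    have h8 : (Q z (D N) (D N) (s / N) : ℝ) ≤ N * ((Q z (D N) (D N) (s / N) : ℝ) / N) := by
      have : (N : ℝ) * ((Q z (D N) (D N) (s / N) : ℝ) / N) = Q z (D N) (D N) (s / N) := by
        field_simp
      rw [this]
    have h9 := cross_bound z (C N) (D N) _ hδ0 h3 N hNR _ h7 _ h8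
    have h10 : (offr z N (s / N) : ℝ) ≤ offA z (C N) (s / N) + 2 * Q z (C N) (D N) (s / N) +
        Q z (D N) (D N) (s / N) := by exact_mod_cast h5
    have h11 := div_le_div_of_nonneg_right h10 hNR.le
    rw [add_div, add_div] at h11
    have h12 := div_le_div_of_nonneg_right h6R hNR.le
    linarith

end part6

section part7

/-! ### Growth estimates -/

def LL (N : ℕ) : ℕ := 2 * (Nat.log 2 N + 1)

def RR (N : ℕ) : ℕ := Nat.sqrt (Nat.sqrt (16 * N)) + 1

lemma log_tendsto : Tendsto (Nat.log 2) atTop atTop := by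
  rw [tendsto_atTop]
  intro b
  filter_upwards [eventually_ge_atTop (2 ^ b)] with N hN
  exact Nat.le_log_of_pow_le (by norm_num) hN

lemma kk_tendsto : Tendsto kk atTop atTop := by
  rw [tendsto_atTop]
  intro b
  filter_upwards [log_tendsto.eventually (eventually_ge_atTop (4 ^ b))] with N hN
  exact Nat.le_log_of_pow_le (by norm_num) hN

lemma kap_tendsto : Tendsto kap atTop atTop := by
  rw [tendsto_atTop]
  intro b
  filter_upwards [eventually_ge_atTop (2 ^ (3 * b))] with k hk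
  unfold kap
  have : 3 * b ≤ Nat.log 2 (k + 1) := Nat.le_log_of_pow_le (by norm_num) (by omega)
  omega

lemma LL_lim : Tendsto (fun N : ℕ => (LL N : ℝ) ^ 2 / N) atTop (𝓝 0) := by
  have h1 : Tendsto (fun b : ℕ => (b : ℝ) ^ 2 / 2 ^ b) atTop (𝓝 0) :=
    tendsto_pow_const_div_const_pow_of_one_lt 2 (by norm_num)
  have h2 := (h1.comp (tendsto_add_atTop_nat 1)).comp log_tendsto
  have h3 := h2.const_mul (8 : ℝ)
  rw [mul_zero] at h3
  refine squeeze_zero' (Eventually.of_forall (fun N => by positivity)) ?_ h3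
  filter_upwards [eventually_ge_atTop 1] with N hN
  have hNR : (0 : ℝ) < N := by exact_mod_cast hN
  simp only [Function.comp]
  have h4 : 2 ^ Nat.log 2 N ≤ N := Nat.pow_log_le_self 2 (by omega)
  have h4R : (2 : ℝ) ^ Nat.log 2 N ≤ N := by exact_mod_cast h4
  unfold LL
  push_cast
  have h5 : (8 : ℝ) * (((Nat.log 2 N : ℝ) + 1) ^ 2 / 2 ^ (Nat.log 2 N + 1)) =
      (2 * ((Nat.log 2 N : ℝ) + 1)) ^ 2 / 2 ^ Nat.log 2 N := by
    rw [pow_succ]; field_simp; ring
  rw [h5]
  exact div_le_div_of_nonneg_left (by positivity) (by positivity) h4R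

lemma RR_lim : Tendsto (fun N : ℕ => (RR N : ℝ) ^ 2 / N) atTop (𝓝 0) := by
  have h1 : Tendsto (fun N : ℕ => (8 : ℝ) * (1 / Real.sqrt N) + 2 * (1 / (N : ℝ))) atTop
      (𝓝 (8 * 0 + 2 * 0)) := by
    refine (Tendsto.const_mul _ ?_).add (Tendsto.const_mul _ tendsto_one_div_atTop_nhds_zero_nat)
    have h2 : Tendsto (fun N : ℕ => Real.sqrt (N : ℝ)) atTop atTop :=
      Real.tendsto_sqrt_atTop.comp tendsto_natCast_atTop_atTop
    have h3 := h2.inv_tendsto_atTop
    refine h3.congr (fun N => ?_)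
    rw [Pi.inv_apply, one_div]
  rw [mul_zero, mul_zero, add_zero] at h1
  refine squeeze_zero' (Eventually.of_forall (fun N => by positivity)) ?_ h1
  filter_upwards [eventually_ge_atTop 1] with N hN
  have hNR : (0 : ℝ) < N := by exact_mod_cast hN
  set r := Nat.sqrt (Nat.sqrt (16 * N)) with hr
  have h2 : r ^ 2 ≤ Nat.sqrt (16 * N) := Nat.sqrt_le' _
  have h3 : Nat.sqrt (16 * N) ^ 2 ≤ 16 * N := Nat.sqrt_le' _
  have h4 : (r ^ 2) ^ 2 ≤ 16 * N := (Nat.pow_le_pow_left h2 2).trans h3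
  have h4R : ((r : ℝ) ^ 2) ^ 2 ≤ 16 * N := by exact_mod_cast h4
  have hsq : Real.sqrt N * Real.sqrt N = N := Real.mul_self_sqrt hNR.le
  have hs0 : 0 < Real.sqrt N := Real.sqrt_pos.mpr hNR
  have h5 : (r : ℝ) ^ 2 ≤ 4 * Real.sqrt N := by
    refine abs_le_of_sq_le_sq' ?_ (by positivity) |>.2
    calc ((r : ℝ) ^ 2) ^ 2 ≤ 16 * N := h4R
      _ = (4 * Real.sqrt N) ^ 2 := by rw [mul_pow, sq (Real.sqrt N), hsq]; norm_num
  have h6 : (RR N : ℝ) = r + 1 := by unfold RR; push_cast; rfl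
  rw [h6, div_le_iff₀ hNR]
  have h7 : (8 * (1 / Real.sqrt N) + 2 * (1 / (N : ℝ))) * N = 8 * Real.sqrt N + 2 := by
    have : (N : ℝ) = Real.sqrt N * Real.sqrt N := hsq.symm
    field_simp
    nlinarith
  rw [h7]
  nlinarith [sq_nonneg ((r : ℝ) - 1)]

lemma nn_lim : Tendsto (fun N : ℕ => (nn (kk N) : ℝ) / N) atTop (𝓝 0) := by
  have h1 : Tendsto (fun j : ℕ => ((1 : ℝ) / 2) ^ j) atTop (𝓝 0) :=
    tendsto_pow_atTop_nhds_zero_of_lt_one (by norm_num) (by norm_num)
  have h2 := h1.comp (kap_tendsto.comp kk_tendsto)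
  refine squeeze_zero' (Eventually.of_forall (fun N => by positivity)) ?_ h2
  filter_upwards [eventually_ge_atTop 2] with N hN
  have hNR : (0 : ℝ) < N := by positivity
  have h3 := NN_kk_le N hN
  rw [NN_eq] at h3
  have h3R : (nn (kk N) : ℝ) * 2 ^ kap (kk N) ≤ N := by exact_mod_cast h3
  simp only [Function.comp]
  rw [one_div_pow, div_le_div_iff₀ hNR (by positivity)]
  linarith

/-! ### The exceptional sets -/

def D1 (N : ℕ) : Finset ℕ := (range N).filter (fun n => comb n ∧ NN (kk N) ≤ n)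

def D2 (N : ℕ) : Finset ℕ := (range N).filter (fun n => (comb n ∧ n < NN (kk N)) ∨ n < LL N)

lemma D1_sub (N n : ℕ) (hn : n ∈ D1 N) : ∃ i, i < nn (kk N) ∧ n = NN (kk N) + i := by
  unfold D1 at hn
  rw [Finset.mem_filter, mem_range] at hn
  obtain ⟨h1, h2, h3⟩ := hn
  obtain ⟨k, i, hi, hk⟩ := (comb_iff n).mp h2
  have h4 : kk n = kk N := by
    apply kk_of_mem
    · exact h3
    · exact h1.trans (lt_NN_kk N)
  have h5 : kk n = k := by rw [hk]; exact kk_comb k i hi
  have h6 : k = kk N := by rw [← h5, h4]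
  rw [h6] at hi hk
  exact ⟨i, hi, hk⟩

lemma D1_card (N : ℕ) : (D1 N).card ≤ nn (kk N) := by
  classical
  have h1 : D1 N ⊆ (range (nn (kk N))).image (fun i => NN (kk N) + i) := by
    intro n hn
    obtain ⟨i, hi, h⟩ := D1_sub N n hn
    rw [Finset.mem_image]
    exact ⟨i, mem_range.mpr hi, h.symm⟩
  refine (Finset.card_le_card h1).trans (Finset.card_image_le.trans ?_)
  rw [card_range]

lemma D2_card (N : ℕ) (hN : 2 ≤ N) : (D2 N).card ≤ RR N + LL N := by
  classical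
  have h1 : D2 N ⊆ range (RR N) ∪ range (LL N) := by
    intro n hn
    unfold D2 at hn
    rw [Finset.mem_filter, mem_range] at hn
    rw [Finset.mem_union, mem_range, mem_range]
    rcases hn.2 with ⟨h2, h3⟩ | h2
    · left
      obtain ⟨k, i, hi, hk⟩ := (comb_iff n).mp h2
      have h4 : k + 1 ≤ kk N := by
        by_contra h
        push Not at h
        have h5 : NN (kk N) ≤ NN k := by
          unfold NN
          exact Nat.pow_le_pow_right (by norm_num) (Nat.pow_le_pow_right (by norm_num) (by omega))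
        omega
      have h5 : n < 2 * NN k := by
        have := nn_le_NN k
        omega
      have h6 : NN (k + 1) ≤ N := by
        refine le_trans ?_ (NN_kk_le N hN)
        unfold NN
        exact Nat.pow_le_pow_right (by norm_num) (Nat.pow_le_pow_right (by norm_num) h4)
      have h7 : n ^ 4 ≤ 16 * N := by
        calc n ^ 4 ≤ (2 * NN k) ^ 4 := Nat.pow_le_pow_left h5.le 4
          _ = 16 * NN (k + 1) := by rw [NN_succ]; ring
          _ ≤ 16 * N := Nat.mul_le_mul_left _ h6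
      have h8 : n ^ 2 ≤ Nat.sqrt (16 * N) := by
        rw [Nat.le_sqrt']
        calc (n ^ 2) ^ 2 = n ^ 4 := by ring
          _ ≤ 16 * N := h7
      have h9 : n ≤ Nat.sqrt (Nat.sqrt (16 * N)) := by
        rw [Nat.le_sqrt']
        exact h8
      unfold RR
      omega
    · right
      exact h2
  refine (Finset.card_le_card h1).trans ((Finset.card_union_le _ _).trans ?_)
  rw [card_range, card_range]

lemma D2_lim : Tendsto (fun N : ℕ => ((D2 N).card : ℝ) ^ 2 / N) atTop (𝓝 0) := by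
  have h1 := (RR_lim.const_mul (2 : ℝ)).add (LL_lim.const_mul (2 : ℝ))
  rw [mul_zero, add_zero] at h1
  refine squeeze_zero' (Eventually.of_forall (fun N => by positivity)) ?_ h1
  filter_upwards [eventually_ge_atTop 2] with N hN
  have hNR : (0 : ℝ) < N := by positivity
  have h2 : ((D2 N).card : ℝ) ≤ RR N + LL N := by exact_mod_cast D2_card N hN
  have h3 : (0 : ℝ) ≤ (D2 N).card := Nat.cast_nonneg _
  rw [mul_div_assoc', mul_div_assoc', ← add_div]
  apply div_le_div_of_nonneg_right _ hNR.le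
  have h4 : ((D2 N).card : ℝ) ^ 2 ≤ ((RR N : ℝ) + LL N) ^ 2 := pow_le_pow_left₀ h3 h2 2
  nlinarith [sq_nonneg ((RR N : ℝ) - LL N)]

lemma D2_lim' : Tendsto (fun N : ℕ => ((D2 N).card : ℝ) / N) atTop (𝓝 0) := by
  refine squeeze_zero' (Eventually.of_forall (fun N => by positivity)) ?_ D2_lim
  filter_upwards [eventually_ge_atTop 2] with N hN
  have hNR : (0 : ℝ) < N := by positivity
  apply div_le_div_of_nonneg_right _ hNR.le
  have : (D2 N).card ≤ (D2 N).card ^ 2 := Nat.le_self_pow (by norm_num) _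
  exact_mod_cast this

lemma comb_count (N : ℕ) : Nat.count comb N ≤ (D1 N).card + (D2 N).card := by
  classical
  rw [Nat.count_eq_card_filter_range]
  refine (Finset.card_le_card (?_ : _ ⊆ D1 N ∪ D2 N)).trans (Finset.card_union_le _ _)
  intro n hn
  rw [Finset.mem_filter] at hn
  unfold D1 D2
  rw [Finset.mem_union, Finset.mem_filter, Finset.mem_filter]
  rcases le_or_gt (NN (kk N)) n with h | h
  · left; exact ⟨hn.1, hn.2, h⟩
  · right; exact ⟨hn.1, Or.inl ⟨hn.2, h⟩⟩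

lemma count_not (N : ℕ) : Nat.count (fun n => ¬ comb n) N + Nat.count comb N = N := by
  rw [Nat.count_eq_card_filter_range, Nat.count_eq_card_filter_range, add_comm,
    Finset.card_filter_add_card_filter_not, card_range]

lemma M_lim : Tendsto (fun N : ℕ => (Nat.count (fun n => ¬ comb n) N : ℝ) / N) atTop (𝓝 1) := by
  have h1 : Tendsto (fun N : ℕ => 1 - ((nn (kk N) : ℝ) / N + ((D2 N).card : ℝ) / N)) atTop
      (𝓝 (1 - (0 + 0))) := tendsto_const_nhds.sub (nn_lim.add D2_lim')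
  rw [add_zero, sub_zero] at h1
  refine tendsto_of_tendsto_of_tendsto_of_le_of_le' h1 tendsto_const_nhds ?_ ?_
  · filter_upwards [eventually_ge_atTop 1] with N hN
    have hNR : (0 : ℝ) < N := by exact_mod_cast hN
    have h2 := comb_count N
    have h3 := D1_card N
    have h4 := count_not N
    have h5 : N ≤ Nat.count (fun n => ¬ comb n) N + (nn (kk N) + (D2 N).card) := by omega
    have h5R : (N : ℝ) ≤ Nat.count (fun n => ¬ comb n) N + (nn (kk N) + (D2 N).card) := by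
      exact_mod_cast h5
    rw [le_div_iff₀ hNR, sub_mul, add_mul, div_mul_cancel₀ _ hNR.ne', div_mul_cancel₀ _ hNR.ne']
    linarith
  · filter_upwards [eventually_ge_atTop 1] with N hN
    have hNR : (0 : ℝ) < N := by exact_mod_cast hN
    rw [div_le_one hNR]
    have h4 := count_not N
    have : Nat.count (fun n => ¬ comb n) N ≤ N := by omega
    exact_mod_cast this

end part7

section part8

/-- rank of `n` among the indices outside the combs -/
def rho (n : ℕ) : ℕ := Nat.count (fun m => ¬ comb m) n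

def CC (N : ℕ) : Finset ℕ := (range N).filter (fun n => ¬ comb n ∧ LL N ≤ n)

def DD (N : ℕ) : Finset ℕ := (range N).filter (fun n => comb n ∨ n < LL N)

lemma count_surj (p : ℕ → Prop) [DecidablePred p] : ∀ N m, m < Nat.count p N →
    ∃ n, n < N ∧ p n ∧ Nat.count p n = m
  | 0 => by intro m hm; simp at hm
  | N + 1 => by
    intro m hm
    rw [Nat.count_succ] at hm
    by_cases h : m < Nat.count p N
    · obtain ⟨n, h1, h2, h3⟩ := count_surj p N m h
      exact ⟨n, by omega, h2, h3⟩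
    · by_cases hp : p N
      · rw [if_pos hp] at hm
        exact ⟨N, by omega, hp, by omega⟩
      · rw [if_neg hp] at hm
        omega

lemma nd_div_lower (d n : ℤ) (hn : 0 < n) (hd : ¬ n ∣ d) : 1 / (n : ℝ) ≤ nd ((d : ℝ) / n) := by
  have hnR : (0 : ℝ) < n := by exact_mod_cast hn
  unfold nd
  set m := round ((d : ℝ) / n)
  have h1 : d - m * n ≠ 0 := by
    intro h
    exact hd ⟨m, by linarith⟩
  have h2 : (1 : ℝ) ≤ |((d - m * n : ℤ) : ℝ)| := by exact_mod_cast Int.one_le_abs h1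
  have h3 : (d : ℝ) / n - m = ((d - m * n : ℤ) : ℝ) / n := by
    push_cast; field_simp
  rw [h3, abs_div, abs_of_pos hnR]
  exact div_le_div_of_nonneg_right h2 hnR.le

lemma comb_separated (k : ℕ) (β : ℝ) (hβ : nd (β - 1 / (nn k : ℝ)) ≤ 2 * (1 / 2) ^ ell (NN k))
    (i i' : ℕ) (hi : i < nn k) (hi' : i' < nn k) (hne : i ≠ i') :
    1 / (2 * (nn k : ℝ)) ≤ nd (((i : ℝ) + 1) * β - ((i' : ℝ) + 1) * β) := by
  wlog h : i' < i generalizing i i'
  · rw [nd_sub_comm]
    exact this i' i hi' hi hne.symm (by omega)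
  have hn0 : (0 : ℝ) < nn k := by exact_mod_cast nn_pos k
  obtain ⟨d, hd⟩ := Nat.exists_eq_add_of_lt h
  have hd1 : (((i : ℝ) + 1) * β - ((i' : ℝ) + 1) * β) = ((d + 1 : ℕ) : ℝ) * β := by
    rw [hd]; push_cast; ring
  rw [hd1]
  have h1 : 1 / ((nn k : ℤ) : ℝ) ≤ nd ((((d + 1 : ℕ) : ℤ) : ℝ) / ((nn k : ℤ) : ℝ)) := by
    apply nd_div_lower _ _ (by exact_mod_cast nn_pos k)
    intro hdvd
    have := Int.le_of_dvd (by positivity) hdvd
    omega
  push_cast at h1
  have h2 := nd_add_le (((d + 1 : ℕ) : ℝ) * β) (-(((d + 1 : ℕ) : ℝ) * (β - 1 / (nn k : ℝ))))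
  have h3 : ((d + 1 : ℕ) : ℝ) * β + -(((d + 1 : ℕ) : ℝ) * (β - 1 / (nn k : ℝ))) =
      ((d : ℝ) + 1) / nn k := by push_cast; ring
  rw [h3, nd_neg] at h2
  have h4 := nd_nat_mul (d + 1) (β - 1 / (nn k : ℝ))
  have h5 : ((d + 1 : ℕ) : ℝ) * nd (β - 1 / (nn k : ℝ)) ≤ (nn k : ℝ) * (2 * (1 / 2) ^ ell (NN k)) := by
    apply mul_le_mul _ hβ (nd_nonneg _) hn0.le
    exact_mod_cast (by omega : d + 1 ≤ nn k)
  have h6 : (nn k : ℝ) * (2 * (1 / 2) ^ ell (NN k)) ≤ 1 / (2 * (nn k : ℝ)) := by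
    rw [le_div_iff₀ (by positivity)]
    have h7 : nn k < 2 ^ NN k := (nn_le_NN k).trans_lt Nat.lt_two_pow_self
    have h7R : (nn k : ℝ) ≤ 2 ^ NN k := by exact_mod_cast h7.le
    have h8 : (4 : ℝ) * (2 ^ NN k * 2 ^ NN k) ≤ 2 ^ ell (NN k) := by
      rw [show (4 : ℝ) = 2 ^ 2 by norm_num, ← pow_add, ← pow_add]
      apply pow_le_pow_right₀ (by norm_num)
      unfold ell; omega
    have h9 : (nn k : ℝ) * nn k ≤ 2 ^ NN k * 2 ^ NN k :=
      mul_le_mul h7R h7R hn0.le (by positivity)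
    rw [one_div_pow]
    have hp : (0 : ℝ) < 2 ^ ell (NN k) := by positivity
    calc (nn k : ℝ) * (2 * (1 / 2 ^ ell (NN k))) * (2 * nn k)
        = 4 * ((nn k : ℝ) * nn k) / 2 ^ ell (NN k) := by ring
      _ ≤ 1 := by rw [div_le_one hp]; linarith
  have h7 : 1 / (nn k : ℝ) = 1 / (2 * (nn k : ℝ)) + 1 / (2 * (nn k : ℝ)) := by
    field_simp; norm_num
  linarith

theorem partA : ∃ α : ℝ, PPC (fun n => (aseq n : ℝ) * α) := by
  classical
  obtain ⟨y, hy⟩ := exists_ppc
  obtain ⟨α, hα⟩ := realize (fun n => if comb n then 1 / (nn (kk n) : ℝ) else y (rho n))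
  refine ⟨α, ?_⟩
  set z : ℕ → ℝ := fun n => (aseq n : ℝ) * α with hz
  refine ppc_compare z y hy rho CC DD (fun N => range (LL N))
    (fun N => Nat.count (fun n => ¬ comb n) N) (fun N => 1 / (N : ℝ) ^ 2) ?_ ?_ ?_ ?_ ?_ ?_ ?_
    M_lim ?_ ?_
  · -- C ∪ D
    intro N
    ext n
    unfold CC DD
    simp only [Finset.mem_union, Finset.mem_filter]
    constructor
    · rintro (h | h)
      · exact h.1
      · exact h.1
    · intro h
      by_cases h1 : comb n
      · right; exact ⟨h, Or.inl h1⟩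
      · rcases lt_or_ge n (LL N) with h2 | h2
        · right; exact ⟨h, Or.inr h2⟩
        · left; exact ⟨h, h1, h2⟩
  · intro N n hn m hm h
    unfold CC at hn hm
    rw [Finset.mem_coe, Finset.mem_filter] at hn hm
    exact Nat.count_injective hn.2.1 hm.2.1 h
  · intro N
    have := count_not N
    show Nat.count (fun n => ¬ comb n) N ≤ N
    omega
  · intro N m hm
    rw [Finset.mem_image] at hm
    obtain ⟨n, hn, rfl⟩ := hm
    unfold CC at hn
    rw [Finset.mem_filter, mem_range] at hn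
    rw [mem_range]
    exact Nat.count_strict_mono hn.2.1 hn.1
  · intro N m hm
    rw [mem_range] at hm
    obtain ⟨n, h1, h2, h3⟩ := count_surj _ N m hm
    rw [Finset.mem_union]
    rcases lt_or_ge n (LL N) with h4 | h4
    · right
      rw [mem_range, ← h3]
      have : Nat.count (fun n => ¬ comb n) n ≤ n := by
        have := count_not n
        omega
      omega
    · left
      rw [Finset.mem_image]
      refine ⟨n, ?_, h3⟩
      unfold CC
      rw [Finset.mem_filter, mem_range]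
      exact ⟨h1, h2, h4⟩
  · intro N n hn
    unfold CC at hn
    rw [Finset.mem_filter, mem_range] at hn
    obtain ⟨h1, h2, h3⟩ := hn
    have h4 := hα n
    rw [if_neg h2] at h4
    have h5 : z n = (2 : ℝ) ^ tt n * α := by
      rw [hz]
      simp only [aseq_not_comb n h2]
      push_cast
      ring
    rw [h5]
    refine h4.trans ?_
    have hNR : (0 : ℝ) < N := by
      have : 0 < N := by omega
      exact_mod_cast this
    have h6 : N < 2 ^ (Nat.log 2 N + 1) := Nat.lt_pow_succ_log_self (by norm_num) N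
    have h6R : (N : ℝ) ≤ 2 ^ (Nat.log 2 N + 1) := by exact_mod_cast h6.le
    have h7 : (N : ℝ) ^ 2 ≤ 2 ^ LL N := by
      unfold LL
      rw [mul_comm, pow_mul]
      exact pow_le_pow_left₀ hNR.le h6R 2
    have h8 : (2 : ℝ) * (1 / 2) ^ ell n ≤ 1 / 2 ^ LL N := by
      have h9 : (2 : ℝ) * (1 / 2) ^ ell n = 1 / 2 ^ (ell n - 1) := by
        obtain ⟨c, hc⟩ : ∃ c, ell n = c + 1 := ⟨10 * n + 9, by unfold ell; omega⟩
        rw [hc, Nat.add_sub_cancel, pow_succ, one_div_pow]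
        field_simp
      rw [h9]
      apply one_div_le_one_div_of_le (by positivity)
      apply pow_le_pow_right₀ (by norm_num)
      unfold ell
      omega
    refine h8.trans ?_
    exact one_div_le_one_div_of_le (by positivity) h7
  · -- N * e N → 0
    refine (tendsto_one_div_atTop_nhds_zero_nat (𝕜 := ℝ)).congr' ?_
    filter_upwards [eventually_ge_atTop 1] with N hN
    have hNR : (0 : ℝ) < N := by exact_mod_cast hN
    field_simp
  · -- pairs in D
    intro s hs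
    have h1 := (nn_lim.add D2_lim).const_mul (6 : ℝ)
    rw [add_zero, mul_zero] at h1
    refine squeeze_zero' (Eventually.of_forall (fun N => by positivity)) ?_ h1
    have hs1 : ∀ᶠ N : ℕ in atTop, s / (N : ℝ) ≤ 1 := by
      have h1 : Tendsto (fun N : ℕ => s / (N : ℝ)) atTop (𝓝 0) :=
        tendsto_const_div_atTop_nhds_zero_nat s
      exact (h1.eventually (gt_mem_nhds one_pos)).mono (fun N h => h.le)
    have hs2 : ∀ᶠ N : ℕ in atTop, 2 * s ≤ 2 ^ kap (kk N) := by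
      have h1 : Tendsto (fun N : ℕ => (2 : ℝ) ^ kap (kk N)) atTop atTop :=
        (tendsto_pow_atTop_atTop_of_one_lt (by norm_num : (1 : ℝ) < 2)).comp
          (kap_tendsto.comp kk_tendsto)
      exact h1.eventually (eventually_ge_atTop _)
    filter_upwards [eventually_ge_atTop 2, hs1, hs2] with N hN hsN hsk
    have hNR : (0 : ℝ) < N := by positivity
    have hδ0 : 0 < s / N := div_pos hs hNR
    rw [← add_div, mul_div_assoc']
    apply div_le_div_of_nonneg_right _ hNR.le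
    have h2 : DD N = D1 N ∪ D2 N := by
      ext n
      unfold DD D1 D2
      simp only [Finset.mem_union, Finset.mem_filter]
      constructor
      · rintro ⟨h3, h4 | h4⟩
        · rcases le_or_gt (NN (kk N)) n with h | h
          · left; exact ⟨h3, h4, h⟩
          · right; exact ⟨h3, Or.inl ⟨h4, h⟩⟩
        · right; exact ⟨h3, Or.inr h4⟩
      · rintro (⟨h3, h4, _⟩ | ⟨h3, ⟨h4, _⟩ | h4⟩)
        · exact ⟨h3, Or.inl h4⟩
        · exact ⟨h3, Or.inl h4⟩
        · exact ⟨h3, Or.inr h4⟩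
    rw [h2]
    have h3 := Q_union_le6 z (D1 N) (D2 N) _ hδ0 hsN
    have h4 : Q z (D1 N) (D1 N) (s / N) = (D1 N).card := by
      rw [Q_self _ _ _ hδ0]
      have : offA z (D1 N) (s / N) = 0 := by
        unfold offA
        rw [Finset.card_eq_zero, Finset.filter_eq_empty_iff]
        intro p hp
        rw [Finset.mem_offDiag] at hp
        obtain ⟨hp1, hp2, hp3⟩ := hp
        obtain ⟨i, hi, hpi⟩ := D1_sub N _ hp1
        obtain ⟨i', hi', hpi'⟩ := D1_sub N _ hp2
        rw [not_lt]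
        set k := kk N with hk
        have h5 := hα (NN k)
        have h6 : comb (NN k) := comb_mem k 0 (nn_pos k)
        have h7 : kk (NN k) = k := kk_comb k 0 (nn_pos k)
        rw [if_pos h6, h7] at h5
        have h8 : z p.1 = ((i : ℝ) + 1) * ((2 : ℝ) ^ tt (NN k) * α) := by
          rw [hz, hpi]
          simp only [aseq_comb k i hi]
          push_cast
          ring
        have h9 : z p.2 = ((i' : ℝ) + 1) * ((2 : ℝ) ^ tt (NN k) * α) := by
          rw [hz, hpi']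
          simp only [aseq_comb k i' hi']
          push_cast
          ring
        rw [h8, h9]
        refine le_trans ?_ (comb_separated k _ h5 i i' hi hi' (fun h => hp3 (by rw [hpi, hpi', h])))
        have h10 : (NN k : ℝ) ≤ N := by exact_mod_cast NN_kk_le N hN
        have h11 : (NN k : ℝ) = nn k * 2 ^ kap k := by
          rw [NN_eq]; push_cast; ring
        have h12 : (0 : ℝ) < nn k := by exact_mod_cast nn_pos k
        rw [div_le_div_iff₀ hNR (by positivity)]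
        rw [h11] at h10
        nlinarith
      omega
    have h5 := D1_card N
    have h6 := Q_le_card_sq z (D2 N) (s / N)
    have h7 : Q z (D1 N ∪ D2 N) (D1 N ∪ D2 N) (s / N) ≤ 6 * (nn (kk N) + (D2 N).card ^ 2) := by
      rw [h4] at h3
      omega
    exact_mod_cast h7
  · -- D'
    simp only [card_range]
    exact LL_lim

end part8

section part9

open MeasureTheory

/-! ### Measure of the set of numbers with a good approximation of bounded denominator -/

/-- torsion points of order at most `J` -/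
lemma finite_tors (J : ℕ) : {u : UnitAddCircle | 1 ≤ addOrderOf u ∧ addOrderOf u ≤ J}.Finite := by
  have h1 : {u : UnitAddCircle | 1 ≤ addOrderOf u ∧ addOrderOf u ≤ J} ⊆
      ⋃ j ∈ Finset.Icc 1 J, {u : UnitAddCircle | addOrderOf u = j} := by
    intro u hu
    simp only [Set.mem_iUnion]
    exact ⟨addOrderOf u, Finset.mem_Icc.mpr hu, rfl⟩
  refine Set.Finite.subset ?_ h1
  apply Set.Finite.biUnion (Finset.finite_toSet _)
  intro j hj
  rw [Finset.mem_coe, Finset.mem_Icc] at hj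
  exact AddCircle.finite_setOfPred_addOrderOf_eq (1 : ℝ) hj.1

lemma measure_good (J : ℕ) (hJ : 1 ≤ J) (η : ℝ) (hη0 : 0 < η) (hη : η ≤ 1 / 2) :
    ENNReal.ofReal η ≤ volume {ξ : UnitAddCircle | ∃ j ∈ Finset.Icc 1 J, ‖j • ξ‖ < η / J} := by
  classical
  have hJR : (0 : ℝ) < J := by exact_mod_cast hJ
  set F : Finset UnitAddCircle := (finite_tors J).toFinset with hF
  have hFm : ∀ u, u ∈ F ↔ 1 ≤ addOrderOf u ∧ addOrderOf u ≤ J := by
    intro u; rw [hF, Set.Finite.mem_toFinset]; rfl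
  let r : UnitAddCircle → ℝ := fun u => 1 / (J * addOrderOf u)
  have hr0 : ∀ u ∈ F, 0 < r u := by
    intro u hu
    have : (0 : ℝ) < addOrderOf u := by exact_mod_cast ((hFm u).mp hu).1
    positivity
  -- cover
  have hcover : (Set.univ : Set UnitAddCircle) ⊆ ⋃ u ∈ F, Metric.closedBall u (r u) := by
    intro ξ _
    obtain ⟨j, hj, hj2⟩ := AddCircle.exists_norm_nsmul_le (T := 1) ξ hJ
    rw [Set.mem_Icc] at hj
    have hj0 : (0 : ℝ) < j := by exact_mod_cast hj.1
    obtain ⟨x, rfl⟩ := QuotientAddGroup.mk_surjective ξ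
    set u : UnitAddCircle := (((round ((j : ℝ) * x) : ℝ) / j : ℝ) : UnitAddCircle) with hu
    have h1 : j • u = 0 := by
      rw [hu, ← AddCircle.coe_nsmul, nsmul_eq_mul]
      have : (j : ℝ) * ((round ((j : ℝ) * x) : ℝ) / j) = (round ((j : ℝ) * x) : ℝ) := by
        field_simp
      rw [this]
      have h2 := AddCircle.coe_eq_zero_iff (1 : ℝ) (x := (round ((j : ℝ) * x) : ℝ))
      rw [h2]
      exact ⟨round ((j : ℝ) * x), by simp⟩
    have hdvd : addOrderOf u ∣ j := addOrderOf_dvd_of_nsmul_eq_zero h1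
    have hord : 0 < addOrderOf u := Nat.pos_of_dvd_of_pos hdvd hj.1
    have hle : addOrderOf u ≤ j := Nat.le_of_dvd hj.1 hdvd
    rw [Set.mem_iUnion]
    refine ⟨u, ?_⟩
    rw [Set.mem_iUnion]
    refine ⟨(hFm u).mpr ⟨hord, hle.trans hj.2⟩, ?_⟩
    rw [Metric.mem_closedBall, dist_eq_norm]
    have h3 : ‖j • ((x : ℝ) : UnitAddCircle)‖ = |(j : ℝ) * x - round ((j : ℝ) * x)| := by
      rw [← AddCircle.coe_nsmul, nsmul_eq_mul, UnitAddCircle.norm_eq]
    have h4 : ‖((x : ℝ) : UnitAddCircle) - u‖ ≤ |(j : ℝ) * x - round ((j : ℝ) * x)| / j := by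
      rw [hu, ← AddCircle.coe_sub, UnitAddCircle.norm_eq]
      refine (round_le _ 0).trans (le_of_eq ?_)
      rw [Int.cast_zero, sub_zero, ← abs_of_pos hj0, ← abs_div, abs_of_pos hj0]
      congr 1
      field_simp
    have h5 : |(j : ℝ) * x - round ((j : ℝ) * x)| ≤ 1 / J := by
      rw [← h3]
      refine hj2.trans ?_
      push_cast
      exact one_div_le_one_div_of_le hJR (by linarith)
    refine h4.trans ?_
    have hoR : (0 : ℝ) < addOrderOf u := by exact_mod_cast hord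
    have hleR : (addOrderOf u : ℝ) ≤ j := by exact_mod_cast hle
    calc |(j : ℝ) * x - round ((j : ℝ) * x)| / j ≤ (1 / J) / j :=
          div_le_div_of_nonneg_right h5 hj0.le
      _ = 1 / (J * j) := by rw [div_div]
      _ ≤ 1 / (J * addOrderOf u) :=
          one_div_le_one_div_of_le (by positivity) (mul_le_mul_of_nonneg_left hleR hJR.le)
  have h1 : (1 : ENNReal) ≤ ∑ u ∈ F, ENNReal.ofReal (2 * r u) := by
    calc (1 : ENNReal) = volume (Set.univ : Set UnitAddCircle) := UnitAddCircle.measure_univ.symm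
      _ ≤ volume (⋃ u ∈ F, Metric.closedBall u (r u)) := measure_mono hcover
      _ ≤ ∑ u ∈ F, volume (Metric.closedBall u (r u)) := measure_biUnion_finset_le _ _
      _ ≤ ∑ u ∈ F, ENNReal.ofReal (2 * r u) := by
          refine Finset.sum_le_sum (fun u _ => ?_)
          rw [AddCircle.volume_closedBall]
          exact ENNReal.ofReal_le_ofReal (min_le_right _ _)
  -- disjointness
  have hdisj : (F : Set UnitAddCircle).PairwiseDisjoint (fun u => Metric.ball u (η * r u)) := by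
    intro u hu u' hu' hne
    rw [Function.onFun, Set.disjoint_left]
    intro ξ h2 h3
    rw [Metric.mem_ball, dist_eq_norm] at h2 h3
    have ho := ((hFm u).mp hu)
    have ho' := ((hFm u').mp hu')
    set o := addOrderOf u
    set o' := addOrderOf u'
    have hoR : (0 : ℝ) < o := by exact_mod_cast ho.1
    have hoR' : (0 : ℝ) < o' := by exact_mod_cast ho'.1
    have hw0 : u - u' ≠ 0 := sub_ne_zero.mpr hne
    have hw1 : (o * o') • (u - u') = 0 := by
      rw [smul_sub]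
      have e1 : (o * o') • u = 0 := by
        rw [mul_comm, mul_smul, addOrderOf_nsmul_eq_zero, smul_zero]
      have e2 : (o * o') • u' = 0 := by
        rw [mul_smul, addOrderOf_nsmul_eq_zero, smul_zero]
      rw [e1, e2, sub_zero]
    have hfin : IsOfFinAddOrder (u - u') :=
      isOfFinAddOrder_iff_nsmul_eq_zero.mpr ⟨o * o', Nat.mul_pos ho.1 ho'.1, hw1⟩
    have h4 := AddCircle.le_add_order_smul_norm_of_isOfFinAddOrder (p := 1) hfin hw0
    have h5 : addOrderOf (u - u') ≤ o * o' :=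
      Nat.le_of_dvd (Nat.mul_pos ho.1 ho'.1) (addOrderOf_dvd_of_nsmul_eq_zero hw1)
    have h5R : (addOrderOf (u - u') : ℝ) ≤ o * o' := by exact_mod_cast h5
    rw [nsmul_eq_mul] at h4
    have h6 : ‖u - u'‖ < η * r u + η * r u' := by
      have : u - u' = (ξ - u') - (ξ - u) := by abel
      rw [this]
      exact (norm_sub_le _ _).trans_lt (by linarith)
    have h7 : (1 : ℝ) ≤ o * o' * ‖u - u'‖ :=
      h4.trans (mul_le_mul_of_nonneg_right h5R (norm_nonneg _))
    have h8 : (o : ℝ) * o' * ‖u - u'‖ < o * o' * (η * r u + η * r u') :=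
      mul_lt_mul_of_pos_left h6 (by positivity)
    have h9 : (o : ℝ) * o' * (η * r u + η * r u') = η * ((o' + o) / J) := by
      show (o : ℝ) * o' * (η * (1 / (J * o)) + η * (1 / (J * o'))) = _
      field_simp
    have h10 : ((o' : ℝ) + o) / J ≤ 2 := by
      rw [div_le_iff₀ hJR]
      have e1 : (o : ℝ) ≤ J := by exact_mod_cast ho.2
      have e2 : (o' : ℝ) ≤ J := by exact_mod_cast ho'.2
      linarith
    nlinarith
  have h2 : volume (⋃ u ∈ F, Metric.ball u (η * r u)) = ∑ u ∈ F, ENNReal.ofReal (2 * (η * r u)) := by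
    rw [measure_biUnion_finset hdisj (fun u _ => measurableSet_ball)]
    refine Finset.sum_congr rfl (fun u hu => ?_)
    apply vol_ball
    have ho := ((hFm u).mp hu)
    have hoR : (1 : ℝ) ≤ addOrderOf u := by exact_mod_cast ho.1
    have hJ1 : (1 : ℝ) ≤ J := by exact_mod_cast hJ
    have : r u ≤ 1 := by
      show 1 / ((J : ℝ) * addOrderOf u) ≤ 1
      rw [div_le_one (by positivity)]
      nlinarith
    have h0 := hr0 u hu
    nlinarith
  have h3 : ENNReal.ofReal η ≤ ∑ u ∈ F, ENNReal.ofReal (2 * (η * r u)) := by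
    have h4 : ∑ u ∈ F, ENNReal.ofReal (2 * (η * r u)) =
        ENNReal.ofReal η * ∑ u ∈ F, ENNReal.ofReal (2 * r u) := by
      rw [Finset.mul_sum]
      refine Finset.sum_congr rfl (fun u hu => ?_)
      rw [← ENNReal.ofReal_mul hη0.le]
      congr 1
      ring
    rw [h4]
    calc ENNReal.ofReal η = ENNReal.ofReal η * 1 := (mul_one _).symm
      _ ≤ _ := mul_le_mul_right h1 _
  rw [← h2] at h3
  refine h3.trans (measure_mono ?_)
  intro ξ hξ
  simp only [Set.mem_iUnion] at hξ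
  obtain ⟨u, hu, hξu⟩ := hξ
  have ho := ((hFm u).mp hu)
  refine ⟨addOrderOf u, Finset.mem_Icc.mpr ho, ?_⟩
  rw [Metric.mem_ball, dist_eq_norm] at hξu
  have hoR : (0 : ℝ) < addOrderOf u := by exact_mod_cast ho.1
  have h4 : addOrderOf u • ξ = addOrderOf u • (ξ - u) := by
    rw [smul_sub, addOrderOf_nsmul_eq_zero, sub_zero]
  rw [h4]
  calc ‖addOrderOf u • (ξ - u)‖ ≤ addOrderOf u * ‖ξ - u‖ := norm_nsmul_le
    _ < addOrderOf u * (η * r u) := mul_lt_mul_of_pos_left hξu hoR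
    _ = η / J := by
      show (addOrderOf u : ℝ) * (η * (1 / (J * addOrderOf u))) = _
      field_simp

end part9

section part10

open MeasureTheory

/-- number of relevant multipliers -/
def JJ (k : ℕ) : ℕ := 2 ^ (4 ^ k - 2 * kap k - 1)

lemma JJ_pos (k : ℕ) : 0 < JJ k := by unfold JJ; positivity

lemma nn_eq (k : ℕ) : nn k = 2 * (2 ^ kap k * JJ k) := by
  unfold nn JJ
  rw [← pow_add, ← pow_succ']
  congr 1
  have := kap_le k
  omega

/-- the scale of the good approximations at level `k` -/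
noncomputable def eps (k : ℕ) : ℝ := 1 / (16 * NN k * 2 ^ kap k)

noncomputable def eta (k : ℕ) : ℝ := 1 / (128 * ((2 : ℝ) ^ kap k) ^ 3)

lemma eps_pos (k : ℕ) : 0 < eps k := by
  unfold eps
  have : (0 : ℝ) < NN k := by exact_mod_cast NN_pos k
  positivity

lemma eta_pos (k : ℕ) : 0 < eta k := by unfold eta; positivity

lemma eta_div (k : ℕ) : eta k / JJ k = eps k / 4 := by
  have h1 : (0 : ℝ) < JJ k := by exact_mod_cast JJ_pos k
  have h2 : (NN k : ℝ) = 2 * (2 ^ kap k * JJ k) * 2 ^ kap k := by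
    rw [NN_eq, nn_eq]; push_cast; ring
  unfold eta eps
  rw [h2]
  field_simp
  norm_num

lemma eta_le_half (k : ℕ) : eta k ≤ 1 / 2 := by
  unfold eta
  apply one_div_le_one_div_of_le (by norm_num)
  have : (1 : ℝ) ≤ 2 ^ kap k := one_le_pow₀ (by norm_num)
  have h3 : (1 : ℝ) ≤ (2 ^ kap k) ^ 3 := one_le_pow₀ this
  linarith

lemma eta_ge (k : ℕ) : 1 / (128 * ((k : ℝ) + 1)) ≤ eta k := by
  unfold eta
  apply one_div_le_one_div_of_le (by positivity)
  have : (((2 ^ kap k) ^ 3 : ℕ) : ℝ) ≤ ((k + 1 : ℕ) : ℝ) := by exact_mod_cast pow_kap_le k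
  push_cast at this
  linarith

/-- the set of numbers with a good approximation at level `k` -/
def EE (k : ℕ) : Set ℝ :=
  {α | ∃ j ∈ Finset.Icc 1 (JJ k),
    nd ((j : ℝ) * ((⌊(2 : ℝ) ^ tt (NN k + 1) * α⌋ : ℝ) / 2 ^ ell (NN k))) < eps k / 2}

lemma two_mul_sq_le (n : ℕ) : 64 * n ^ 3 ≤ 2 ^ (10 * (n + 1)) := by
  have h1 : n + 1 ≤ 2 ^ n := Nat.lt_pow_self (by norm_num)
  calc 64 * n ^ 3 ≤ 64 * (2 ^ n) ^ 3 := by
        apply Nat.mul_le_mul_left
        exact Nat.pow_le_pow_left (by omega) 3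
    _ = 2 ^ (3 * n + 6) := by rw [← pow_mul, pow_add, mul_comm n 3]; ring
    _ ≤ 2 ^ (10 * (n + 1)) := Nat.pow_le_pow_right (by norm_num) (by omega)

lemma JJ_ell (k : ℕ) : (JJ k : ℝ) / 2 ^ ell (NN k) ≤ eps k / 4 := by
  have hN : (0 : ℝ) < NN k := by exact_mod_cast NN_pos k
  have h1 : JJ k ≤ NN k := by
    rw [NN_eq, nn_eq]
    have h2 : 1 ≤ 2 ^ kap k := Nat.one_le_two_pow
    calc JJ k = 1 * (1 * JJ k) * 1 := by ring
      _ ≤ 2 * (2 ^ kap k * JJ k) * 2 ^ kap k := by gcongr; norm_num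
  have h2 : 2 ^ kap k ≤ NN k := by
    rw [NN_eq]; exact Nat.le_mul_of_pos_left _ (nn_pos k)
  have h3 := two_mul_sq_le (NN k)
  have h4 : JJ k * (64 * NN k * 2 ^ kap k) ≤ 2 ^ ell (NN k) := by
    calc JJ k * (64 * NN k * 2 ^ kap k) ≤ NN k * (64 * NN k * NN k) := by gcongr
      _ = 64 * NN k ^ 3 := by ring
      _ ≤ _ := h3
  have h5 : (JJ k : ℝ) * (64 * NN k * 2 ^ kap k) ≤ 2 ^ ell (NN k) := by exact_mod_cast h4
  unfold eps
  rw [div_div, div_le_div_iff₀ (by positivity) (by positivity)]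
  calc (JJ k : ℝ) * (16 * NN k * 2 ^ kap k * 4) = JJ k * (64 * NN k * 2 ^ kap k) := by ring
    _ ≤ _ := h5
    _ = _ := by ring

lemma norm_nsmul_coe (j : ℕ) (y : ℝ) : ‖j • ((y : ℝ) : UnitAddCircle)‖ = nd ((j : ℝ) * y) := by
  rw [← AddCircle.coe_nsmul, nsmul_eq_mul, UnitAddCircle.norm_eq]
  rfl

/-- transfer of `measure_good` to intervals `[m, m+1)` of the line -/
lemma measure_good' (J : ℕ) (hJ : 1 ≤ J) (η : ℝ) (hη0 : 0 < η) (hη : η ≤ 1 / 2) (m : ℤ) :
    ENNReal.ofReal η ≤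
      volume ({y : ℝ | ∃ j ∈ Finset.Icc 1 J, nd ((j : ℝ) * y) < η / J} ∩ Set.Ico (m : ℝ) (m + 1)) := by
  have h1 := measure_good J hJ η hη0 hη
  set S : Set UnitAddCircle := {ξ : UnitAddCircle | ∃ j ∈ Finset.Icc 1 J, ‖j • ξ‖ < η / J} with hS
  have hSm : MeasurableSet S := by
    have : S = ⋃ j ∈ Finset.Icc 1 J, {ξ : UnitAddCircle | ‖j • ξ‖ < η / J} := by
      ext ξ; simp [hS]
    rw [this]
    apply MeasurableSet.biUnion (Finset.countable_toSet _)
    intro j _
    apply IsOpen.measurableSet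
    apply isOpen_lt
    · exact (continuous_const_smul j).norm
    · exact continuous_const
  have h2 := (UnitAddCircle.measurePreserving_mk (m : ℝ)).measure_preimage hSm.nullMeasurableSet
  rw [← h2] at h1
  rw [← restrict_Ico_eq_restrict_Ioc] at h1
  rw [Measure.restrict_apply' measurableSet_Ico] at h1
  refine h1.trans (measure_mono ?_)
  intro y hy
  refine ⟨?_, hy.2⟩
  obtain ⟨j, hj, hj2⟩ := hy.1
  refine ⟨j, hj, ?_⟩
  rw [← norm_nsmul_coe]
  exact hj2

lemma nd_int_mul_add (j : ℕ) (y z : ℝ) : nd ((j : ℝ) * y) ≤ nd ((j : ℝ) * z) + j * |y - z| := by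
  have h1 : (j : ℝ) * y = j * z + j * (y - z) := by ring
  rw [h1]
  refine (nd_add_le _ _).trans ?_
  gcongr
  refine (nd_le_abs _).trans ?_
  rw [abs_mul, Nat.abs_cast]

/-- the fibres of `⌊2^t α⌋` meet `EE k` in proportion at least `eta k` -/
lemma fiber_EE (k : ℕ) (m : ℤ) :
    ENNReal.ofReal (eta k) * ENNReal.ofReal ((2 : ℝ) ^ tt (NN k))⁻¹ ≤
      volume (EE k ∩ {α : ℝ | ⌊(2 : ℝ) ^ tt (NN k) * α⌋ = m}) := by
  have h1 := measure_good' (JJ k) (JJ_pos k) (eta k) (eta_pos k) (eta_le_half k) m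
  set S : Set ℝ := {y : ℝ | ∃ j ∈ Finset.Icc 1 (JJ k), nd ((j : ℝ) * y) < eta k / JJ k} ∩
    Set.Ico (m : ℝ) (m + 1) with hS
  have hP : (0 : ℝ) < 2 ^ tt (NN k) := by positivity
  have h2 := Real.volume_preimage_mul_left hP.ne' S
  have h3 : (fun x => (2 : ℝ) ^ tt (NN k) * x) ⁻¹' S ⊆
      EE k ∩ {α : ℝ | ⌊(2 : ℝ) ^ tt (NN k) * α⌋ = m} := by
    intro α hα
    rw [Set.mem_preimage, hS] at hα
    obtain ⟨⟨j, hj, hj2⟩, hα3⟩ := hα
    refine ⟨⟨j, hj, ?_⟩, ?_⟩
    · rw [eta_div] at hj2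
      refine (nd_int_mul_add j _ ((2 : ℝ) ^ tt (NN k) * α)).trans_lt ?_
      have h4 : |(⌊(2 : ℝ) ^ tt (NN k + 1) * α⌋ : ℝ) / 2 ^ ell (NN k) - 2 ^ tt (NN k) * α| ≤
          1 / 2 ^ ell (NN k) := by
        have h5 : (2 : ℝ) ^ tt (NN k) * α = (2 : ℝ) ^ tt (NN k + 1) * α / 2 ^ ell (NN k) := by
          rw [tt_succ, pow_add]; field_simp
        rw [h5, ← sub_div, abs_div, abs_of_pos (by positivity : (0 : ℝ) < 2 ^ ell (NN k))]
        apply div_le_div_of_nonneg_right _ (by positivity)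
        rw [abs_sub_comm, abs_of_nonneg (sub_nonneg.mpr (Int.floor_le _))]
        have := Int.lt_floor_add_one ((2 : ℝ) ^ tt (NN k + 1) * α)
        linarith
      have h6 : (j : ℝ) * |(⌊(2 : ℝ) ^ tt (NN k + 1) * α⌋ : ℝ) / 2 ^ ell (NN k) -
          2 ^ tt (NN k) * α| ≤ eps k / 4 := by
        refine le_trans ?_ (JJ_ell k)
        rw [div_eq_mul_one_div (JJ k : ℝ)]
        apply mul_le_mul _ h4 (abs_nonneg _) (by positivity)
        exact_mod_cast (Finset.mem_Icc.mp hj).2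
      linarith
    · show ⌊(2 : ℝ) ^ tt (NN k) * α⌋ = m
      rw [Int.floor_eq_iff]
      exact ⟨hα3.1, hα3.2⟩
  refine le_trans ?_ (measure_mono h3)
  rw [h2, abs_of_pos (inv_pos.mpr hP), mul_comm]
  gcongr

end part10

section part11

open MeasureTheory

/-- membership in `A` depends only on the first `t` binary digits -/
def Dep (t : ℕ) (A : Set ℝ) : Prop :=
  ∀ x y : ℝ, ⌊(2 : ℝ) ^ t * x⌋ = ⌊(2 : ℝ) ^ t * y⌋ → (x ∈ A ↔ y ∈ A)

lemma Dep.mono {t t' : ℕ} (h : t ≤ t') {A : Set ℝ} (hA : Dep t A) : Dep t' A := by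
  intro x y hxy
  apply hA
  obtain ⟨d, rfl⟩ := Nat.exists_eq_add_of_le h
  have key : ∀ z : ℝ, ⌊(2 : ℝ) ^ t * z⌋ = ⌊(2 : ℝ) ^ (t + d) * z⌋ / ((2 ^ d : ℕ) : ℤ) := by
    intro z
    have h1 : (2 : ℝ) ^ t * z = (2 : ℝ) ^ (t + d) * z / ((2 ^ d : ℕ) : ℝ) := by
      push_cast
      rw [pow_add]
      field_simp
    rw [h1, Int.floor_div_natCast]
  rw [key x, key y, hxy]

lemma Dep.inter {t : ℕ} {A B : Set ℝ} (hA : Dep t A) (hB : Dep t B) : Dep t (A ∩ B) := by
  intro x y h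
  rw [Set.mem_inter_iff, Set.mem_inter_iff, hA x y h, hB x y h]

lemma Dep.compl {t : ℕ} {A : Set ℝ} (hA : Dep t A) : Dep t Aᶜ := by
  intro x y h
  rw [Set.mem_compl_iff, Set.mem_compl_iff, hA x y h]

lemma Dep_EE (k : ℕ) : Dep (tt (NN k + 1)) (EE k) := by
  intro x y h
  unfold EE
  rw [Set.mem_ofPred_eq, Set.mem_ofPred_eq, h]

/-- the dyadic cell -/
def cell (t : ℕ) (m : ℤ) : Set ℝ := {α : ℝ | ⌊(2 : ℝ) ^ t * α⌋ = m}

lemma cell_eq (t : ℕ) (m : ℤ) : cell t m = (fun x => (2 : ℝ) ^ t * x) ⁻¹' Set.Ico (m : ℝ) (m + 1) := by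
  ext x
  show ⌊(2 : ℝ) ^ t * x⌋ = m ↔ (m : ℝ) ≤ 2 ^ t * x ∧ 2 ^ t * x < m + 1
  rw [Int.floor_eq_iff]

lemma measurableSet_cell (t : ℕ) (m : ℤ) : MeasurableSet (cell t m) := by
  rw [cell_eq]
  exact (measurable_const_mul _) measurableSet_Ico

lemma volume_cell (t : ℕ) (m : ℤ) : volume (cell t m) = ENNReal.ofReal ((2 : ℝ) ^ t)⁻¹ := by
  have hP : (0 : ℝ) < 2 ^ t := by positivity
  rw [cell_eq, Real.volume_preimage_mul_left hP.ne', Real.volume_Ico, abs_of_pos (inv_pos.mpr hP)]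
  simp

/-- the labels of the cells forming a digit-dependent set -/
lemma Dep.eq_biUnion {t : ℕ} {A : Set ℝ} (hA : Dep t A) :
    A = ⋃ m ∈ {m : ℤ | (cell t m ∩ A).Nonempty}, cell t m := by
  ext x
  simp only [Set.mem_iUnion]
  constructor
  · intro hx
    exact ⟨⌊(2 : ℝ) ^ t * x⌋, ⟨x, rfl, hx⟩, rfl⟩
  · rintro ⟨m, ⟨y, hy1, hy2⟩, hx⟩
    have h1 : ⌊(2 : ℝ) ^ t * x⌋ = m := hx
    have h2 : ⌊(2 : ℝ) ^ t * y⌋ = m := hy1
    exact (hA x y (h1.trans h2.symm)).mpr hy2

lemma Dep.measurableSet {t : ℕ} {A : Set ℝ} (hA : Dep t A) : MeasurableSet A := by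
  rw [hA.eq_biUnion]
  exact MeasurableSet.biUnion (Set.to_countable _) (fun m _ => measurableSet_cell t m)

lemma cell_disjoint (t : ℕ) {m m' : ℤ} (h : m ≠ m') : Disjoint (cell t m) (cell t m') := by
  rw [Set.disjoint_left]
  intro x h1 h2
  exact h (h1.symm.trans h2)

/-- conditional bound for a set having proportion at least `η` in each cell -/
lemma Dep.measure_le {t : ℕ} {A E : Set ℝ} (hA : Dep t A) (hE : MeasurableSet E) (η : ℝ)
    (hη : η ≤ 1)
    (hη0 : 0 ≤ η)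
    (h : ∀ m, ENNReal.ofReal η * ENNReal.ofReal ((2 : ℝ) ^ t)⁻¹ ≤ volume (E ∩ cell t m)) :
    volume (A ∩ Eᶜ) ≤ ENNReal.ofReal (1 - η) * volume A := by
  set S := {m : ℤ | (cell t m ∩ A).Nonempty} with hS
  have hAe : A = ⋃ m ∈ S, cell t m := hA.eq_biUnion
  have h1 : A ∩ Eᶜ = ⋃ m ∈ S, cell t m ∩ Eᶜ := by
    rw [hAe, Set.iUnion₂_inter]
  have h2 : volume (A ∩ Eᶜ) = ∑' m : S, volume (cell t m ∩ Eᶜ) := by
    rw [h1]
    apply measure_biUnion (Set.to_countable S)
    · intro m _ m' _ hne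
      exact (cell_disjoint t hne).mono Set.inter_subset_left Set.inter_subset_left
    · intro m _
      exact (measurableSet_cell t m).inter hE.compl
  have h3 : volume A = ∑' m : S, volume (cell t m) := by
    conv_lhs => rw [hAe]
    apply measure_biUnion (Set.to_countable S)
    · intro m _ m' _ hne
      exact cell_disjoint t hne
    · intro m _
      exact measurableSet_cell t m
  rw [h2, h3, ← ENNReal.tsum_mul_left]
  refine ENNReal.tsum_le_tsum (fun m => ?_)
  have h4 : volume (cell t m ∩ Eᶜ) + volume (E ∩ cell t m) = volume (cell t (m : ℤ)) := by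
    rw [Set.inter_comm E, add_comm, ← Set.sdiff_eq]
    exact measure_inter_add_sdiff _ hE
  have h5 := h m
  have hv := volume_cell t m
  have hfin : volume (E ∩ cell t (m : ℤ)) ≠ ⊤ := by
    refine ne_top_of_le_ne_top ?_ (measure_mono Set.inter_subset_right)
    rw [hv]; exact ENNReal.ofReal_ne_top
  rw [hv] at h4 ⊢
  have hP : (0 : ℝ) ≤ ((2 : ℝ) ^ t)⁻¹ := by positivity
  rw [← ENNReal.ofReal_mul hη0] at h5
  rw [← ENNReal.ofReal_mul (by linarith)]
  have h6 : ENNReal.ofReal ((2 : ℝ) ^ t)⁻¹ =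
      ENNReal.ofReal ((1 - η) * ((2 : ℝ) ^ t)⁻¹) + ENNReal.ofReal (η * ((2 : ℝ) ^ t)⁻¹) := by
    rw [← ENNReal.ofReal_add (by apply mul_nonneg _ hP; linarith) (by positivity)]
    congr 1
    ring
  rw [h6] at h4
  have h7 : volume (cell t ↑m ∩ Eᶜ) + ENNReal.ofReal (η * ((2 : ℝ) ^ t)⁻¹) ≤
      ENNReal.ofReal ((1 - η) * ((2 : ℝ) ^ t)⁻¹) + ENNReal.ofReal (η * ((2 : ℝ) ^ t)⁻¹) := by
    rw [← h4]
    gcongr
  exact (ENNReal.add_le_add_iff_right ENNReal.ofReal_ne_top).mp h7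

lemma NN_lt_succ (k : ℕ) : NN k + 1 ≤ NN (k + 1) := by
  rw [NN_succ]
  have := two_le_NN k
  calc NN k + 1 ≤ NN k + NN k := by omega
    _ = 2 * NN k := by ring
    _ ≤ NN k ^ 3 * NN k := by
        apply Nat.mul_le_mul_right
        calc 2 ≤ NN k := this
          _ = NN k ^ 1 := (pow_one _).symm
          _ ≤ NN k ^ 3 := Nat.pow_le_pow_right (by omega) (by norm_num)
    _ = NN k ^ 4 := by ring

/-- the set of points of a unit interval that avoid `EE k` for `L ≤ k < L + n` -/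
def GG (m0 : ℤ) (L n : ℕ) : Set ℝ := {α | ⌊α⌋ = m0 ∧ ∀ k, L ≤ k → k < L + n → α ∉ EE k}

lemma Dep_GG (m0 : ℤ) (L n : ℕ) : Dep (tt (NN (L + n))) (GG m0 L n) := by
  induction n with
  | zero =>
    have h0 : Dep 0 (GG m0 L 0) := by
      intro x y h
      simp only [pow_zero, one_mul] at h
      unfold GG
      rw [Set.mem_ofPred_eq, Set.mem_ofPred_eq, h]
      constructor
      · rintro ⟨h1, _⟩
        exact ⟨h1, fun k h2 h3 => absurd h3 (by omega)⟩
      · rintro ⟨h1, _⟩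
        exact ⟨h1, fun k h2 h3 => absurd h3 (by omega)⟩
    exact h0.mono (Nat.zero_le _)
  | succ n ih =>
    have h1 : GG m0 L (n + 1) = GG m0 L n ∩ (EE (L + n))ᶜ := by
      ext x
      unfold GG
      simp only [Set.mem_ofPred_eq, Set.mem_inter_iff, Set.mem_compl_iff]
      constructor
      · rintro ⟨h1, h2⟩
        exact ⟨⟨h1, fun k h3 h4 => h2 k h3 (by omega)⟩, h2 _ (by omega) (by omega)⟩
      · rintro ⟨⟨h1, h2⟩, h3⟩
        refine ⟨h1, fun k h4 h5 => ?_⟩
        rcases Nat.lt_or_ge k (L + n) with h | h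
        · exact h2 k h4 h
        · have : k = L + n := by omega
          rw [this]; exact h3
    rw [h1]
    apply Dep.inter
    · exact ih.mono (tt_mono (by have := NN_lt_succ (L + n); rw [← add_assoc]; omega))
    · exact (Dep_EE (L + n)).compl.mono (tt_mono (by have := NN_lt_succ (L + n); rw [← add_assoc]; omega))

lemma GG_succ (m0 : ℤ) (L n : ℕ) : GG m0 L (n + 1) = GG m0 L n ∩ (EE (L + n))ᶜ := by
  ext x
  unfold GG
  simp only [Set.mem_ofPred_eq, Set.mem_inter_iff, Set.mem_compl_iff]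
  constructor
  · rintro ⟨h1, h2⟩
    exact ⟨⟨h1, fun k h3 h4 => h2 k h3 (by omega)⟩, h2 _ (by omega) (by omega)⟩
  · rintro ⟨⟨h1, h2⟩, h3⟩
    refine ⟨h1, fun k h4 h5 => ?_⟩
    rcases Nat.lt_or_ge k (L + n) with h | h
    · exact h2 k h4 h
    · have : k = L + n := by omega
      rw [this]; exact h3

lemma volume_GG (m0 : ℤ) (L n : ℕ) :
    volume (GG m0 L n) ≤ ENNReal.ofReal (Real.exp (-∑ i ∈ range n, eta (L + i))) := by
  induction n with
  | zero =>
    rw [Finset.range_zero, Finset.sum_empty, neg_zero, Real.exp_zero, ENNReal.ofReal_one]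
    have : GG m0 L 0 ⊆ cell 0 m0 := by
      intro x hx
      show ⌊(2 : ℝ) ^ 0 * x⌋ = m0
      rw [pow_zero, one_mul]
      exact hx.1
    refine (measure_mono this).trans ?_
    rw [volume_cell]
    simp
  | succ n ih =>
    rw [GG_succ]
    have h1 := (Dep_GG m0 L n).measure_le (Dep_EE (L + n)).measurableSet (eta (L + n))
      ((eta_le_half _).trans (by norm_num)) (eta_pos _).le (fun m => fiber_EE (L + n) m)
    refine h1.trans ?_
    rw [Finset.sum_range_succ, neg_add, Real.exp_add, mul_comm, ENNReal.ofReal_mul (Real.exp_pos _).le]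
    gcongr
    have := Real.add_one_le_exp (-eta (L + n))
    linarith

lemma sum_eta_tendsto (L : ℕ) : Tendsto (fun n => ∑ i ∈ range n, eta (L + i)) atTop atTop := by
  have h1 := Real.tendsto_sum_range_one_div_nat_succ_atTop
  have h2 : Tendsto (fun n => (1 / (128 * ((L : ℝ) + 1))) * ∑ i ∈ range n, (1 : ℝ) / ((i : ℝ) + 1))
      atTop atTop := by
    apply Tendsto.const_mul_atTop (by positivity)
    exact h1
  refine tendsto_atTop_mono (fun n => ?_) h2
  rw [Finset.mul_sum]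
  refine Finset.sum_le_sum (fun i _ => ?_)
  refine le_trans ?_ (eta_ge (L + i))
  rw [div_mul_div_comm, one_mul]
  apply one_div_le_one_div_of_le (by positivity)
  push_cast
  have : (0 : ℝ) ≤ L := Nat.cast_nonneg L
  have : (0 : ℝ) ≤ i := Nat.cast_nonneg i
  nlinarith [mul_nonneg ‹(0:ℝ) ≤ (L:ℝ)› ‹(0:ℝ) ≤ (i:ℝ)›]

lemma volume_never (m0 : ℤ) (L : ℕ) :
    volume {α : ℝ | ⌊α⌋ = m0 ∧ ∀ k, L ≤ k → α ∉ EE k} = 0 := by
  have h1 : Tendsto (fun n => ENNReal.ofReal (Real.exp (-∑ i ∈ range n, eta (L + i)))) atTop (𝓝 0) := by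
    have h2 : Tendsto (fun n => Real.exp (-∑ i ∈ range n, eta (L + i))) atTop (𝓝 0) :=
      Real.tendsto_exp_neg_atTop_nhds_zero.comp (sum_eta_tendsto L)
    have h3 := ENNReal.tendsto_ofReal h2
    rwa [ENNReal.ofReal_zero] at h3
  refine le_antisymm (ge_of_tendsto' h1 (fun n => ?_)) bot_le
  refine (measure_mono ?_).trans (volume_GG m0 L n)
  intro x hx
  exact ⟨hx.1, fun k h _ => hx.2 k h⟩

/-- almost every number belongs to infinitely many `EE k` -/
lemma ae_frequently_EE : ∀ᵐ α : ℝ, ∀ L : ℕ, ∃ k, L ≤ k ∧ α ∈ EE k := by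
  rw [ae_all_iff]
  intro L
  rw [ae_iff]
  have h1 : {α : ℝ | ¬∃ k, L ≤ k ∧ α ∈ EE k} ⊆
      ⋃ m0 : ℤ, {α : ℝ | ⌊α⌋ = m0 ∧ ∀ k, L ≤ k → α ∉ EE k} := by
    intro x hx
    rw [Set.mem_iUnion]
    refine ⟨⌊x⌋, rfl, fun k hk hmem => hx ⟨k, hk, hmem⟩⟩
  refine measure_mono_null h1 ?_
  rw [measure_iUnion_null_iff]
  exact fun m0 => volume_never m0 L

end part11

section part12

open MeasureTheory

lemma EE_good (k : ℕ) (α : ℝ) (hα : α ∈ EE k) :
    ∃ j, 1 ≤ j ∧ j ≤ JJ k ∧ nd ((j : ℝ) * (2 ^ tt (NN k) * α)) < eps k := by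
  obtain ⟨j, hj, hj2⟩ := hα
  rw [Finset.mem_Icc] at hj
  refine ⟨j, hj.1, hj.2, ?_⟩
  refine (nd_int_mul_add j _ (((⌊(2 : ℝ) ^ tt (NN k + 1) * α⌋ : ℝ) / 2 ^ ell (NN k)))).trans_lt ?_
  have h4 : |2 ^ tt (NN k) * α - (⌊(2 : ℝ) ^ tt (NN k + 1) * α⌋ : ℝ) / 2 ^ ell (NN k)| ≤
      1 / 2 ^ ell (NN k) := by
    have h5 : (2 : ℝ) ^ tt (NN k) * α = (2 : ℝ) ^ tt (NN k + 1) * α / 2 ^ ell (NN k) := by
      rw [tt_succ, pow_add]; field_simp
    rw [h5, ← sub_div, abs_div, abs_of_pos (by positivity : (0 : ℝ) < 2 ^ ell (NN k))]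
    apply div_le_div_of_nonneg_right _ (by positivity)
    rw [abs_of_nonneg (sub_nonneg.mpr (Int.floor_le _))]
    have := Int.lt_floor_add_one ((2 : ℝ) ^ tt (NN k + 1) * α)
    linarith
  have h6 : (j : ℝ) * |2 ^ tt (NN k) * α - (⌊(2 : ℝ) ^ tt (NN k + 1) * α⌋ : ℝ) /
      2 ^ ell (NN k)| ≤ eps k / 4 := by
    refine le_trans ?_ (JJ_ell k)
    rw [div_eq_mul_one_div (JJ k : ℝ)]
    apply mul_le_mul _ h4 (abs_nonneg _) (by positivity)
    exact_mod_cast hj.2
  have := eps_pos k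
  linarith

lemma offr_big (k : ℕ) (α : ℝ) (hα : α ∈ EE k) :
    NN k ≤ offr (fun n => (aseq n : ℝ) * α) (NN k + nn k) ((1 / 8) / ((NN k + nn k : ℕ) : ℝ)) := by
  classical
  obtain ⟨j, hj1, hj2, hj⟩ := EE_good k α hα
  set K := 2 ^ kap k with hK
  have hN := NN_pos k
  have hnn : nn k = 2 * (K * JJ k) := nn_eq k
  have hKpos : 0 < K := by rw [hK]; positivity
  set δ : ℝ := (1 / 8) / ((NN k + nn k : ℕ) : ℝ) with hδ
  have hbound : ∀ i l, i < K * JJ k → 1 ≤ l → l ≤ K → i + l * j < nn k := by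
    intro i l hi _ hl
    have h1 : l * j ≤ K * JJ k := Nat.mul_le_mul hl hj2
    rw [hnn]
    omega
  have hclose : ∀ i l, i < K * JJ k → 1 ≤ l → l ≤ K →
      nd ((aseq (NN k + (i + l * j)) : ℝ) * α - (aseq (NN k + i) : ℝ) * α) < δ := by
    intro i l hi hl1 hl2
    have hb := hbound i l hi hl1 hl2
    have hi' : i < nn k := by rw [hnn]; omega
    rw [aseq_comb k _ hb, aseq_comb k _ hi']
    have h1 : (((i + l * j + 1) * 2 ^ tt (NN k) : ℕ) : ℝ) * α -
        (((i + 1) * 2 ^ tt (NN k) : ℕ) : ℝ) * α = (l : ℝ) * ((j : ℝ) * (2 ^ tt (NN k) * α)) := by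
      push_cast; ring
    rw [h1]
    have h2 : (l : ℝ) ≤ 2 ^ kap k := by exact_mod_cast hl2
    have hNR : (0 : ℝ) < NN k := by exact_mod_cast hN
    have hl0 : (0 : ℝ) < l := by exact_mod_cast hl1
    calc nd ((l : ℝ) * ((j : ℝ) * (2 ^ tt (NN k) * α)))
        ≤ l * nd ((j : ℝ) * (2 ^ tt (NN k) * α)) := nd_nat_mul _ _
      _ < l * eps k := mul_lt_mul_of_pos_left hj hl0
      _ ≤ 2 ^ kap k * eps k := mul_le_mul_of_nonneg_right h2 (eps_pos k).le
      _ = 1 / (16 * NN k) := by unfold eps; field_simp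
      _ ≤ δ := by
        rw [hδ, div_div]
        apply one_div_le_one_div_of_le
        · push_cast
          have : (0 : ℝ) < nn k := by exact_mod_cast nn_pos k
          positivity
        · push_cast
          have : (nn k : ℝ) ≤ NN k := by exact_mod_cast nn_le_NN k
          linarith
  let D : Finset (ℕ × ℕ) := range (K * JJ k) ×ˢ Finset.Icc 1 K
  let f : ℕ × ℕ → ℕ × ℕ := fun p => (NN k + p.1, NN k + (p.1 + p.2 * j))
  let g : ℕ × ℕ → ℕ × ℕ := fun p => (NN k + (p.1 + p.2 * j), NN k + p.1)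
  have hf : Function.Injective f := by
    intro p q h
    simp only [f, Prod.mk.injEq] at h
    have h1 : p.1 = q.1 := by omega
    have h2 : p.2 * j = q.2 * j := by omega
    have h3 : p.2 = q.2 := Nat.eq_of_mul_eq_mul_right (by omega) h2
    exact Prod.ext h1 h3
  have hg : Function.Injective g := by
    intro p q h
    simp only [g, Prod.mk.injEq] at h
    have h1 : p.1 = q.1 := by omega
    have h2 : p.2 * j = q.2 * j := by omega
    have h3 : p.2 = q.2 := Nat.eq_of_mul_eq_mul_right (by omega) h2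
    exact Prod.ext h1 h3
  have hdisj : Disjoint (D.image f) (D.image g) := by
    rw [Finset.disjoint_left]
    intro x h1 h2
    rw [Finset.mem_image] at h1 h2
    obtain ⟨p, hp, hpx⟩ := h1
    obtain ⟨q, hq, hqx⟩ := h2
    simp only [D, Finset.mem_product, Finset.mem_Icc, Finset.mem_range] at hp hq
    have h3 : f p = g q := hpx.trans hqx.symm
    simp only [f, g, Prod.mk.injEq] at h3
    have h4 : 0 < p.2 * j := Nat.mul_pos (by omega) (by omega)
    have h5 : 0 < q.2 * j := Nat.mul_pos (by omega) (by omega)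
    omega
  have hDc : D.card = K * JJ k * K := by
    simp [D]
  have hcard : (D.image f ∪ D.image g).card = NN k := by
    rw [Finset.card_union_of_disjoint hdisj, Finset.card_image_of_injective _ hf,
      Finset.card_image_of_injective _ hg, hDc, NN_eq, hnn]
    ring
  unfold offr
  conv_lhs => rw [← hcard]
  apply Finset.card_le_card
  intro x hx
  rw [Finset.mem_filter, Finset.mem_offDiag, Finset.mem_range, Finset.mem_range]
  rw [Finset.mem_union, Finset.mem_image, Finset.mem_image] at hx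
  rcases hx with ⟨p, hp, rfl⟩ | ⟨p, hp, rfl⟩
  · simp only [D, Finset.mem_product, Finset.mem_Icc, Finset.mem_range] at hp
    have hb := hbound p.1 p.2 hp.1 hp.2.1 hp.2.2
    have h4 : 0 < p.2 * j := Nat.mul_pos (by omega) (by omega)
    refine ⟨⟨by simp only [f]; omega, by simp only [f]; omega, by simp only [f]; omega⟩, ?_⟩
    rw [nd_sub_comm]
    exact hclose p.1 p.2 hp.1 hp.2.1 hp.2.2
  · simp only [D, Finset.mem_product, Finset.mem_Icc, Finset.mem_range] at hp
    have hb := hbound p.1 p.2 hp.1 hp.2.1 hp.2.2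
    have h4 : 0 < p.2 * j := Nat.mul_pos (by omega) (by omega)
    refine ⟨⟨by simp only [g]; omega, by simp only [g]; omega, by simp only [g]; omega⟩, ?_⟩
    exact hclose p.1 p.2 hp.1 hp.2.1 hp.2.2

lemma partB : ∀ᵐ α : ℝ, ¬ PPC (fun n => (aseq n : ℝ) * α) := by
  filter_upwards [ae_frequently_EE] with α hα hP
  have h1 := hP (1 / 8) (by norm_num)
  have h2 : ∀ᶠ N : ℕ in atTop,
      (offr (fun n => (aseq n : ℝ) * α) N ((1 / 8) / N) : ℝ) / N < 1 / 2 := by
    apply h1.eventually_lt_const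
    norm_num
  obtain ⟨N0, hN0⟩ := eventually_atTop.mp h2
  obtain ⟨k, hk, hkE⟩ := hα N0
  have h3 : N0 ≤ NN k + nn k := by
    have h4 : k < NN k := by
      unfold NN
      calc k < 4 ^ k := Nat.lt_pow_self (by norm_num)
        _ < 2 ^ (4 ^ k) := Nat.lt_pow_self (by norm_num)
    omega
  have h5 := hN0 _ h3
  have h6 := offr_big k α hkE
  have hNpos : (0 : ℝ) < ((NN k + nn k : ℕ) : ℝ) := by
    have := NN_pos k
    exact_mod_cast (by omega : 0 < NN k + nn k)
  rw [div_lt_iff₀ hNpos] at h5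
  have h7 : (NN k : ℝ) ≤ (offr (fun n => (aseq n : ℝ) * α) (NN k + nn k)
      ((1 / 8) / ((NN k + nn k : ℕ) : ℝ)) : ℝ) := by exact_mod_cast h6
  have h8 : (nn k : ℝ) ≤ NN k := by exact_mod_cast nn_le_NN k
  have h9 := lt_of_le_of_lt h7 h5
  push_cast at h9
  linarith

end part12

section part13

open MeasureTheory

/-! ### Conclusion -/

lemma nd_fract_sub (u v : ℝ) : nd (Int.fract u - Int.fract v) = nd (u - v) := by
  have h1 : Int.fract u - Int.fract v = (u - v) - ((⌊u⌋ - ⌊v⌋ : ℤ) : ℝ) := by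
    unfold Int.fract
    push_cast
    ring
  unfold nd
  rw [h1, round_sub_intCast]
  congr 1
  push_cast
  ring

/-- the sequence, indexed from `1` -/
def aZ (n : ℕ) : ℤ := if n = 0 then 0 else (aseq (n - 1) : ℤ)

lemma aZ_succ (n : ℕ) : aZ (n + 1) = (aseq n : ℤ) := by
  unfold aZ
  rw [if_neg (Nat.succ_ne_zero n), Nat.add_sub_cancel]

lemma aZ_strictMono : StrictMono aZ := by
  apply strictMono_nat_of_lt_succ
  intro n
  rw [aZ_succ]
  cases n with
  | zero =>
    have h1 : aZ 0 = 0 := by unfold aZ; rw [if_pos rfl]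
    rw [h1]
    exact_mod_cast aseq_pos 0
  | succ n =>
    rw [aZ_succ]
    exact_mod_cast aseq_strictMono (Nat.lt_succ_self n)

lemma pairCount_eq (α : ℝ) (N : ℕ) (δ : ℝ) :
    pairCount (fun n => Int.fract ((aZ n : ℝ) * α)) N δ =
      offr (fun n => (aseq n : ℝ) * α) N δ := by
  unfold pairCount offr
  symm
  apply Finset.card_bij (fun p _ => (p.1 + 1, p.2 + 1))
  · intro p hp
    rw [Finset.mem_filter, Finset.mem_offDiag, Finset.mem_range, Finset.mem_range] at hp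
    rw [Finset.mem_filter, Finset.mem_product, Finset.mem_Icc, Finset.mem_Icc]
    refine ⟨⟨⟨by simp, by simpa using hp.1.1⟩, ⟨by simp, by simpa using hp.1.2.1⟩⟩, ?_, ?_⟩
    · simpa using hp.1.2.2
    · show nd (Int.fract ((aZ (p.1 + 1) : ℝ) * α) - Int.fract ((aZ (p.2 + 1) : ℝ) * α)) < δ
      rw [nd_fract_sub, aZ_succ, aZ_succ]
      simpa using hp.2
  · intro p _ q _ h
    simp only [Prod.mk.injEq, Nat.add_right_cancel_iff] at h
    exact Prod.ext h.1 h.2
  · intro q hq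
    rw [Finset.mem_filter, Finset.mem_product, Finset.mem_Icc, Finset.mem_Icc] at hq
    obtain ⟨q1, q2⟩ := q
    simp only at hq
    obtain ⟨m, rfl⟩ : ∃ m, q1 = m + 1 := ⟨q1 - 1, by omega⟩
    obtain ⟨n, rfl⟩ : ∃ n, q2 = n + 1 := ⟨q2 - 1, by omega⟩
    refine ⟨(m, n), ?_, rfl⟩
    rw [Finset.mem_filter, Finset.mem_offDiag, Finset.mem_range, Finset.mem_range]
    refine ⟨⟨by simp only; omega, by simp only; omega, by simp only; omega⟩, ?_⟩
    have h2 := hq.2.2
    rw [nd_fract_sub, aZ_succ, aZ_succ] at h2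
    simpa using h2

lemma hasPPC_iff (α : ℝ) :
    HasPPC (fun n => Int.fract ((aZ n : ℝ) * α)) ↔ PPC (fun n => (aseq n : ℝ) * α) := by
  unfold HasPPC PPC
  refine forall_congr' (fun s => ?_)
  refine imp_congr_right (fun _ => ?_)
  have h1 : (fun N : ℕ => (1 / (N : ℝ)) *
      (pairCount (fun n => Int.fract ((aZ n : ℝ) * α)) N (s / N) : ℝ)) =
      fun N : ℕ => (offr (fun n => (aseq n : ℝ) * α) N (s / N) : ℝ) / N := by
    funext N
    rw [pairCount_eq, one_div, inv_mul_eq_div]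
  rw [h1]

/-- Q1 has a positive answer: there is a strictly increasing sequence of positive integers
`a_1 < a_2 < …` such that `{a_n α}` fails to have Poissonian pair correlations for almost every
real `α`, and yet `{a_n α}` has Poissonian pair correlations for some real `α`. -/
theorem result : ∃ a : ℕ → ℤ, StrictMono a ∧ (∀ n, 1 ≤ n → 0 < a n) ∧
    (∀ᵐ α : ℝ, ¬ HasPPC (fun n => Int.fract ((a n : ℝ) * α))) ∧
    (∃ α : ℝ, HasPPC (fun n => Int.fract ((a n : ℝ) * α))) := by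
  refine ⟨aZ, aZ_strictMono, ?_, ?_, ?_⟩
  · intro n hn
    obtain ⟨m, rfl⟩ : ∃ m, n = m + 1 := ⟨n - 1, by omega⟩
    rw [aZ_succ]
    exact_mod_cast aseq_pos m
  · filter_upwards [partB] with α hα
    rw [hasPPC_iff]
    exact hα
  · obtain ⟨α, hα⟩ := partA
    exact ⟨α, (hasPPC_iff α).mpr hα⟩

end part13

end Pool.Agent.Results.MP_b61c36_nt.PPCCounterexample
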